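import Pool.Agent.Q267.Seven.Legendre
import Pool.Agent.Q267.Landen.Eval

/-!
The inert case: if `X^2 - X + 2` has no root modulo `p`, then
`∑_{k ≤ (p-1)/2} C(2k,k)^3 ≡ 0 (mod p^2)`.
-/

namespace Pool.Agent.Q267.Seven

open Polynomial Finset Pool.Agent.Q267.Landen

theorem dl_mod {K : Type*} [Field K] (p m : ℕ) [CharP K p] (hpm : p = 2 * m + 1) (k : ℕ)
    (hk : k ≤ m) : (dl m k : K) = cc K m k := by
  have hm' : (2 : K) * m + 1 = 0 := by
    have : ((p : ℕ) : K) = 0 := CharP.cast_eq_zero K p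
    rw [hpm] at this
    push_cast at this
    exact this
  induction k with
  | zero => simp [dl, cc]
  | succ k ih =>
    have ih := ih (by omega)
    have h1 := dK_succ (K := K) m k
    have h2 := cc_succ (K := K) m k (by omega)
    unfold dK at h1
    have hk0 : ((k : K) + 1) ^ 2 ≠ 0 := by
      have := cast_ne (K := K) p (k + 1) (by omega) (by omega)
      push_cast at this
      exact pow_ne_zero _ this
    apply mul_right_cancel₀ hk0
    rw [h1, h2, ih]
    linear_combination ((k : K) - m) * cc K m k * hm'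

theorem dl_sq (p m : ℕ) (hp : p.Prime) (hpm : p = 2 * m + 1) (k : ℕ) (hk : k ≤ m) :
    (p : ℤ) ^ 2 ∣ 16 ^ k * dl m k - (k.centralBinom : ℤ) ^ 2 := by
  induction k with
  | zero => simp [dl]
  | succ k ih =>
    have ih := ih (by omega)
    have h1 := dl_succ m k
    have h2 := Nat.succ_mul_centralBinom_succ k
    have h2' : (((k + 1) * (k + 1).centralBinom : ℕ) : ℤ) =
      ((2 * (2 * k + 1) * k.centralBinom : ℕ) : ℤ) := by rw [h2]
    push_cast at h2'
    have hcop : IsCoprime ((p : ℤ) ^ 2) (((k : ℤ) + 1) ^ 2) := by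
      apply IsCoprime.pow
      have : IsCoprime (p : ℤ) ((k + 1 : ℕ) : ℤ) := by
        rw [Nat.isCoprime_iff_coprime]
        exact (Nat.Prime.coprime_iff_not_dvd hp).2
          (Nat.not_dvd_of_pos_of_lt (by omega) (by omega))
      exact_mod_cast this
    apply hcop.dvd_of_dvd_mul_left
    have hpm' : (p : ℤ) = 2 * m + 1 := by rw [hpm]; push_cast; ring
    have e : ((k : ℤ) + 1) ^ 2 * (16 ^ (k + 1) * dl m (k + 1) - ((k + 1).centralBinom : ℤ) ^ 2) =
        4 * (2 * (k : ℤ) + 1) ^ 2 * (16 ^ k * dl m k - (k.centralBinom : ℤ) ^ 2)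
        - (p : ℤ) ^ 2 * (4 * 16 ^ k * dl m k) := by
      rw [pow_succ (16 : ℤ), hpm']
      linear_combination 16 ^ k * 16 * h1 - (((k : ℤ) + 1) * ((k + 1).centralBinom : ℤ)
        + 2 * (2 * k + 1) * (k.centralBinom : ℤ)) * h2'
    rw [e]
    exact dvd_sub (Dvd.dvd.mul_left ih _) (Dvd.dvd.mul_right dvd_rfl _)

/-- the ring `ℤ[ω]`, `ω^2 = ω - 2`. -/
abbrev R2 : Type := QuadraticAlgebra ℤ (-2) 1

/-- the generator. -/
def om : R2 := QuadraticAlgebra.omega

theorem om_sq : om ^ 2 = om - 2 := by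
  unfold om
  ext <;> simp [pow_two, QuadraticAlgebra.re_ofNat, QuadraticAlgebra.im_ofNat]

/-- the specialisation at a root. -/
noncomputable def phi {K : Type*} [Field K] (w : K) (hw : w ^ 2 - w + 2 = 0) : R2 →+* K :=
  (QuadraticAlgebra.lift (A := K) ⟨w, by
    rw [zsmul_one, one_zsmul]
    push_cast
    linear_combination hw⟩ : R2 →ₐ[ℤ] K).toRingHom

theorem phi_apply {K : Type*} [Field K] (w : K) (hw : w ^ 2 - w + 2 = 0) (z : R2) :
    phi w hw z = (z.re : K) + (z.im : K) * w := by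
  change z.re • (1 : K) + z.im • w = _
  rw [zsmul_one, zsmul_eq_mul]

theorem phi_om {K : Type*} [Field K] (w : K) (hw : w ^ 2 - w + 2 = 0) : phi w hw om = w := by
  rw [phi_apply]
  unfold om
  simp

theorem ker_phi {K : Type*} [Field K] (p : ℕ) [hp : Fact p.Prime] [CharP K p] (w : K)
    (hw : w ^ 2 - w + 2 = 0) (hne : w ^ p ≠ w) (z : R2) (hz : phi w hw z = 0) :
    ∃ z' : R2, z = (p : R2) * z' := by
  rw [phi_apply] at hz
  have him : ((z.im : ℤ) : K) = 0 := by
    by_contra h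
    apply hne
    have hF : ∀ n : ℤ, ((n : ℤ) : K) ^ p = (n : K) := by
      intro n
      have := congrArg (ZMod.castHom (dvd_refl p) K) (ZMod.pow_card ((n : ℤ) : ZMod p))
      rw [map_pow, map_intCast] at this
      exact this
    have h1 : w = ((-z.re : ℤ) : K) * ((z.im : ℤ) : K)⁻¹ := by
      rw [eq_mul_inv_iff_mul_eq₀ h]
      push_cast
      linear_combination hz
    rw [h1, mul_pow, inv_pow, hF, hF]
  have hre : ((z.re : ℤ) : K) = 0 := by
    rw [him] at hz
    linear_combination hz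
  rw [CharP.intCast_eq_zero_iff K p] at him hre
  obtain ⟨u, hu⟩ := hre
  obtain ⟨v, hv⟩ := him
  refine ⟨⟨u, v⟩, ?_⟩
  ext
  · simp [hu]
  · simp [hv]

/-- the supersingular value vanishes. -/
theorem F_zero {K : Type*} [Field K] (p m : ℕ) [hp : Fact p.Prime] [CharP K p]
    (hpm : p = 2 * m + 1) (h2 : (2 : K) ≠ 0) (h7 : p ≠ 7) (w : K) (hw : w ^ 2 - w + 2 = 0)
    (hne : w ^ p ≠ w) : ∑ k ∈ range (m + 1), cc K m k * (w ^ 4) ^ k = 0 := by
  have hfw : (w ^ p) ^ 2 - w ^ p + 2 = 0 := by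
    have := congrArg (frobenius K p) hw
    simp only [map_add, map_sub, map_pow, map_zero, map_ofNat, frobenius_def] at this
    exact this
  have hfr : w ^ p = 1 - w := by
    have : (w ^ p - w) * (w ^ p - (1 - w)) = 0 := by linear_combination hfw - hw
    exact sub_eq_zero.1 ((mul_eq_zero.1 this).resolve_left (sub_ne_zero.2 hne))
  have e0 := point_I' (K := K) p m hpm h2 w hw
  have e4 : ∑ k ∈ range (m + 1), cc K m k * (w ^ 4) ^ k =
      (Ph m (cc K m) 0 (X : K[X]) 1).eval (2 - 3 * w) := by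
    unfold Ph
    rw [eval_finsetSum]
    refine sum_congr rfl fun k _ => ?_
    rw [show w ^ 4 = 2 - 3 * w by linear_combination (w ^ 2 + w - 1) * hw]
    simp
  rw [e4]
  set F := (Ph m (cc K m) 0 (X : K[X]) 1).eval (2 - 3 * w)
  have e1 : (w ^ 2) ^ m * w = 1 - w := by
    rw [← hfr, ← pow_mul, ← pow_succ]
    exact congrArg (fun n => w ^ n) hpm.symm
  have e3 : (1 - 2 * w) * F = 0 := by
    linear_combination w * e0 - F * e1
  have n1 : (1 - 2 * w) ≠ 0 := by
    intro hz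
    have h' : ((7 : ℕ) : K) = 0 := by
      push_cast
      linear_combination 4 * hw - (1 - 2 * w) * hz
    rw [CharP.cast_eq_zero_iff K p] at h'
    exact h7 ((Nat.prime_dvd_prime_iff_eq hp.out (by norm_num)).1 h')
  exact (mul_eq_zero.1 e3).resolve_left n1

/-- existence of a root outside the prime field. -/
theorem exists_root (p : ℕ) [hp : Fact p.Prime] (hp2 : p ≠ 2)
    (hno : ∀ w : ZMod p, w ^ 2 - w + 2 ≠ 0) :
    ∃ w : AlgebraicClosure (ZMod p), w ^ 2 - w + 2 = 0 ∧ w ^ p ≠ w := by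
  let K := AlgebraicClosure (ZMod p)
  have h2 : (2 : K) ≠ 0 := by
    have : ((2 : ℕ) : K) ≠ 0 := by
      rw [Ne, CharP.cast_eq_zero_iff K p]
      intro h
      exact hp2 ((Nat.prime_dvd_prime_iff_eq hp.out (by norm_num)).1 h)
    exact_mod_cast this
  obtain ⟨r, hr⟩ := IsAlgClosed.exists_pow_nat_eq (-7 : K) (n := 2) (by norm_num)
  obtain ⟨w, hw'⟩ : ∃ w : K, 2 * w = 1 + r :=
    ⟨2⁻¹ * (1 + r), by rw [← mul_assoc, mul_inv_cancel₀ h2, one_mul]⟩
  have hw : w ^ 2 - w + 2 = 0 := by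
    have h4 : (2 : K) ^ 2 ≠ 0 := pow_ne_zero _ h2
    apply mul_left_cancel₀ h4
    linear_combination (2 * w + 1 + r - 2) * hw' + hr
  refine ⟨w, hw, ?_⟩
  intro he
  have hmem : w ∈ (⊥ : Subfield K) := (Subfield.mem_bot_iff_pow_eq_self K p).2 he
  rw [← ZMod.fieldRange_castHom_eq_bot p] at hmem
  obtain ⟨v, hv⟩ := hmem
  apply hno v
  apply (ZMod.castHom (dvd_refl p) K).injective
  rw [map_add, map_sub, map_pow, map_ofNat, map_zero]
  rw [show (ZMod.castHom (dvd_refl p) K) v = w from hv]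
  exact hw

variable (p m : ℕ) [hp : Fact p.Prime]

/-- the element `∑ d_k ω^(4k)` is divisible by `p` in the inert case. -/
theorem E_dvd (hpm : p = 2 * m + 1) (hp2 : p ≠ 2) (h7 : p ≠ 7)
    (hno : ∀ w : ZMod p, w ^ 2 - w + 2 ≠ 0) :
    ∃ z : R2, ∑ k ∈ range (m + 1), (dl m k : R2) * (om ^ 4) ^ k = (p : R2) * z := by
  obtain ⟨w, hw, hne⟩ := exists_root p hp2 hno
  have h2 : (2 : AlgebraicClosure (ZMod p)) ≠ 0 := by
    have : ((2 : ℕ) : AlgebraicClosure (ZMod p)) ≠ 0 := by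
      rw [Ne, CharP.cast_eq_zero_iff _ p]
      intro h
      exact hp2 ((Nat.prime_dvd_prime_iff_eq hp.out (by norm_num)).1 h)
    exact_mod_cast this
  apply ker_phi p w hw hne
  rw [map_sum]
  rw [← F_zero p m hpm h2 h7 w hw hne]
  refine sum_congr rfl fun k hk => ?_
  have hk' : k ≤ m := by simpa [Nat.lt_succ_iff] using hk
  rw [map_mul, map_pow, map_pow, phi_om, map_intCast, dl_mod p m hpm k hk']

/-- **the sum of cubes vanishes modulo `p^2` in the inert case.** -/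
theorem inert_sum (hpm : p = 2 * m + 1) (hp2 : p ≠ 2) (h7 : p ≠ 7)
    (hno : ∀ w : ZMod p, w ^ 2 - w + 2 ≠ 0) :
    (p : ℤ) ^ 2 ∣ ∑ k ∈ range (m + 1), (k.centralBinom : ℤ) ^ 3 := by
  obtain ⟨z, hz⟩ := E_dvd p m hpm hp2 h7 hno
  have h := legendre_sq_ring (R := R2) m (om ^ 4)
  rw [hz] at h
  have h16 : om ^ 4 * (1 - om ^ 4) = 16 := by
    have := om_sq
    linear_combination (-om ^ 6 - om ^ 5 + om ^ 4 + 3 * om ^ 3 + 2 * om ^ 2 - 4 * om - 8) * this
  rw [h16] at h
  have h1 : (p : ℤ) ^ 2 ∣ ∑ k ∈ range (m + 1), 16 ^ k * dl m k * (k.centralBinom : ℤ) := by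
    have hre := congrArg QuadraticAlgebra.re h
    refine ⟨(z ^ 2).re, ?_⟩
    have e1 : (∑ k ∈ range (m + 1), (dl m k : R2) * (k.centralBinom : R2) * 16 ^ k) =
        ((∑ k ∈ range (m + 1), 16 ^ k * dl m k * (k.centralBinom : ℤ) : ℤ) : R2) := by
      push_cast
      refine sum_congr rfl fun k _ => ?_
      ring
    rw [e1, QuadraticAlgebra.re_intCast] at hre
    simp only [Int.cast_id] at hre
    rw [← hre]
    have e2 : ((p : R2) * z) ^ 2 = (((p : ℤ) ^ 2 : ℤ) : R2) * z ^ 2 := by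
      push_cast
      ring
    rw [e2, QuadraticAlgebra.re_mul, QuadraticAlgebra.re_intCast, QuadraticAlgebra.im_intCast]
    simp
  have h2 : (p : ℤ) ^ 2 ∣ ∑ k ∈ range (m + 1),
      (16 ^ k * dl m k - (k.centralBinom : ℤ) ^ 2) * (k.centralBinom : ℤ) := by
    refine dvd_sum fun k hk => ?_
    have hk' : k ≤ m := by simpa [Nat.lt_succ_iff] using hk
    exact Dvd.dvd.mul_right (dl_sq p m hp.out hpm k hk') _
  have h3 : ∑ k ∈ range (m + 1), (k.centralBinom : ℤ) ^ 3 =
      (∑ k ∈ range (m + 1), 16 ^ k * dl m k * (k.centralBinom : ℤ)) -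
      ∑ k ∈ range (m + 1), (16 ^ k * dl m k - (k.centralBinom : ℤ) ^ 2)
        * (k.centralBinom : ℤ) := by
    rw [← sum_sub_distrib]
    refine sum_congr rfl fun k _ => ?_
    ring
  rw [h3]
  exact dvd_sub h1 h2

end Pool.Agent.Q267.Seven
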