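import Pool.Agent.Q267.Landen.Clausen

/-!
Clausen's identity for Legendre polynomials:
`(∑ (-1)^k C(m,k) C(m+k,k) x^k)^2 = ∑ (-1)^k C(m,k) C(m+k,k) C(2k,k) (x (1-x))^k`
in every commutative ring.
-/

namespace Pool.Agent.Q267.Seven

open Polynomial Finset Pool.Agent.Q267.Landen

/-- `(-1)^k C(m,k) C(m+k,k)`. -/
def dl (m k : ℕ) : ℤ := (-1) ^ k * (m.choose k : ℤ) * ((m + k).choose k : ℤ)

theorem dl_succ (m k : ℕ) : dl m (k + 1) * ((k : ℤ) + 1) ^ 2 =
    ((k : ℤ) ^ 2 + k - m * (m + 1)) * dl m k := by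
  rcases lt_or_ge m k with h | h
  · unfold dl
    rw [Nat.choose_eq_zero_of_lt h, Nat.choose_eq_zero_of_lt (show m < k + 1 by omega)]
    simp
  · have h1 := Nat.choose_succ_right_eq m k
    have h1' : ((m.choose (k + 1) * (k + 1) : ℕ) : ℤ) = ((m.choose k * (m - k) : ℕ) : ℤ) := by
      rw [h1]
    rw [Nat.cast_mul, Nat.cast_mul, Nat.cast_sub h] at h1'
    push_cast at h1'
    have h2 := Nat.add_one_mul_choose_eq (m + k) k
    have h2' : (((m + k + 1) * (m + k).choose k : ℕ) : ℤ) =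
      (((m + k + 1).choose (k + 1) * (k + 1) : ℕ) : ℤ) := by rw [h2]
    push_cast at h2'
    unfold dl
    rw [pow_succ, show m + (k + 1) = m + k + 1 by ring]
    linear_combination (-(-1) ^ k * ((m + k + 1).choose (k + 1) : ℤ) * ((k : ℤ) + 1)) * h1'
      + ((-1) ^ k * (m.choose k : ℤ) * ((m : ℤ) - k)) * h2'

variable {K : Type*} [Field K]

/-- weights in `K`. -/
def dK (K : Type*) [Field K] (m k : ℕ) : K := (dl m k : K)

/-- weights of the square. -/
def vK (K : Type*) [Field K] (m k : ℕ) : K := (dl m k : K) * (k.centralBinom : K)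

theorem dK_succ (m k : ℕ) : dK K m (k + 1) * ((k : K) + 1) ^ 2 =
    ((k : K) ^ 2 + k - m * (m + 1)) * dK K m k := by
  have h := congrArg (Int.cast : ℤ → K) (dl_succ m k)
  push_cast at h
  exact h

theorem vK_succ (m k : ℕ) : vK K m (k + 1) * ((k : K) + 1) ^ 3 =
    2 * (2 * (k : K) + 1) * ((k : K) ^ 2 + k - m * (m + 1)) * vK K m k := by
  have h := dK_succ (K := K) m k
  have h2 := Nat.succ_mul_centralBinom_succ k
  have h2' : (((k + 1) * (k + 1).centralBinom : ℕ) : K) =
    ((2 * (2 * k + 1) * k.centralBinom : ℕ) : K) := by rw [h2]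
  push_cast at h2'
  unfold vK
  unfold dK at h
  linear_combination (((k + 1).centralBinom : K) * ((k : K) + 1)) * h
    + (((k : K) ^ 2 + k - m * (m + 1)) * (dl m k : K)) * h2'

/-- the operator with general parameter `N`. -/
noncomputable def TN (N : K) (y : K[X]) : K[X] :=
  DD (DD (DD y)) + 4 * C N * W K * DD y + 2 * C N * W K * (1 - 2 * X) * y

theorem TN_sub (N : K) (y z : K[X]) : TN N (y - z) = TN N y - TN N z := by
  unfold TN; simp only [DD_sub]; ring

theorem DD2L (m : ℕ) : DD (DD (Ph m (dK K m) 0 (X : K[X]) 1)) =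
    - C ((m : K) * (m + 1)) * W K * Ph m (dK K m) 0 (X : K[X]) 1 := by
  have h := shift m (fun k => dK K m k * (k : K) ^ 2)
    (fun k => ((k : K) ^ 2 + k - m * (m + 1)) * dK K m k) (X : K[X]) 1 (by simp)
    (by ring) (by
      intro k _
      have := dK_succ (K := K) m k
      push_cast
      exact this)
  have e1 : Ph m (dK K m) 2 (X : K[X]) 1 =
      ∑ k ∈ range (m + 1), C (dK K m k * (k : K) ^ 2) * X ^ k * 1 ^ (m - k) := rfl
  have e2 : Ph m (dK K m) 2 (X : K[X]) 1 + Ph m (dK K m) 1 (X : K[X]) 1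
      - C ((m : K) * (m + 1)) * Ph m (dK K m) 0 (X : K[X]) 1 =
      ∑ k ∈ range (m + 1), C (((k : K) ^ 2 + k - m * (m + 1)) * dK K m k) * X ^ k
        * 1 ^ (m - k) := by
    unfold Ph
    rw [mul_sum, ← sum_add_distrib, ← sum_sub_distrib]
    refine sum_congr rfl fun k _ => ?_
    simp only [C_mul, C_pow, C_sub, C_add]
    ring
  rw [← e1, ← e2] at h
  rw [DD_Ph, DD_mul, DD_Ph, DD_sub, DD_one, DD_X]
  rw [show (0 + 1 : ℕ) = 1 from rfl, show (1 + 1 : ℕ) = 2 from rfl]
  set F0 := Ph m (dK K m) 0 (X : K[X]) 1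
  set F1 := Ph m (dK K m) 1 (X : K[X]) 1
  set F2 := Ph m (dK K m) 2 (X : K[X]) 1
  unfold W
  linear_combination (1 - X) * h

theorem TNff (m : ℕ) : TN ((m : K) * (m + 1)) (Ph m (dK K m) 0 (X : K[X]) 1
    * Ph m (dK K m) 0 (X : K[X]) 1) = 0 := by
  have h := DD2L (K := K) m
  set f := Ph m (dK K m) 0 (X : K[X]) 1
  set N := C ((m : K) * (m + 1))
  have h' : DD (DD (DD f)) = - N * (W K * (1 - 2 * X)) * f - N * W K * DD f := by
    have e := congrArg DD h
    rw [DD_mul, DD_mul, DD_neg, DD_C, DD_W] at e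
    linear_combination e
  unfold TN
  simp only [DD_mul, DD_add]
  linear_combination 2 * f * h' + 6 * DD f * h

theorem TNP (m : ℕ) : TN ((m : K) * (m + 1)) (Sw m (vK K m) 0) = 0 := by
  have h := Sw_shift m (fun k => vK K m k * (k : K) ^ 3)
    (fun k => 2 * (2 * (k : K) + 1) * ((k : K) ^ 2 + k - m * (m + 1)) * vK K m k) (by simp)
    (by ring) (by
      intro k _
      have := vK_succ (K := K) m k
      push_cast
      exact this)
  have e1 : Sw m (vK K m) 3 = ∑ k ∈ range (m + 1), C (vK K m k * (k : K) ^ 3) * W K ^ k := rfl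
  have e2 : 4 * Sw m (vK K m) 3 + 6 * Sw m (vK K m) 2
      + (2 - 4 * C ((m : K) * (m + 1))) * Sw m (vK K m) 1
      - 2 * C ((m : K) * (m + 1)) * Sw m (vK K m) 0 =
      ∑ k ∈ range (m + 1), C (2 * (2 * (k : K) + 1) * ((k : K) ^ 2 + k - m * (m + 1))
        * vK K m k) * W K ^ k := by
    unfold Sw
    rw [mul_sum, mul_sum, mul_sum, mul_sum, ← sum_add_distrib, ← sum_add_distrib,
      ← sum_sub_distrib]
    refine sum_congr rfl fun k _ => ?_
    simp only [C_mul, C_pow, C_sub, C_add, map_ofNat, C_1]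
    ring
  rw [← e1, ← e2] at h
  unfold TN
  simp only [DD_Sw, DD_mul, DD_sigma, DD_neg, DD_two, DD_W, zero_add, DD_add]
  set P0 := Sw m (vK K m) 0
  set P1 := Sw m (vK K m) 1
  set P2 := Sw m (vK K m) 2
  set P3 := Sw m (vK K m) 3
  unfold W at h ⊢
  linear_combination (1 - 2 * X) * h

theorem stepN [CharZero K] (N : K) (Y : K[X]) (hY : TN N Y = 0) (j : ℕ)
    (h : X ^ (j + 1) ∣ Y) : X ^ (j + 2) ∣ Y := by
  obtain ⟨Z, rfl⟩ := h
  set n : K[X] := C ((j + 1 : ℕ) : K) with hn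
  set b : K[X] := 1 - X with hb
  have hab : DD (X : K[X]) = X * b := by rw [DD_X]; rfl
  have key : ∀ Z : K[X], DD (X ^ (j + 1) * Z) = X ^ (j + 1) * (n * b * Z + DD Z) := by
    intro Z
    rw [DD_mul, DD_pow X (j + 1) b hab]
    ring
  unfold TN at hY
  rw [key, key, key] at hY
  have e : X ^ (j + 1) * ((n * b * (n * b * (n * b * Z + DD Z) + DD (n * b * Z + DD Z))
      + DD (n * b * (n * b * Z + DD Z) + DD (n * b * Z + DD Z)))
      + 4 * C N * W K * (n * b * Z + DD Z) + 2 * C N * W K * (1 - 2 * X) * Z) = 0 := by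
    rw [← hY]; ring
  have e4 := (mul_eq_zero.1 e).resolve_left (pow_ne_zero _ X_ne_zero)
  have e5 := congrArg (eval (0 : K)) e4
  have hr : (0 : K) * (1 - 0) = 0 := by ring
  have hW : (W K).eval 0 = 0 := by
    unfold W
    rw [eval_mul, eval_sub, eval_one, eval_X, hr]
  simp only [eval_add, eval_sub, eval_mul, eval_DD 0 hr, hW, eval_zero, add_zero,
    mul_zero, zero_mul] at e5
  have hj0 : n.eval 0 ≠ 0 := by
    rw [hn, eval_C]
    exact Nat.cast_ne_zero.2 (Nat.succ_ne_zero j)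
  have hb0 : b.eval 0 ≠ 0 := by
    rw [hb, eval_sub, eval_one, eval_X, sub_zero]
    exact one_ne_zero
  have e6 : eval 0 Z = 0 := by
    have hNb := mul_ne_zero hj0 hb0
    exact (mul_eq_zero.1 ((mul_eq_zero.1 ((mul_eq_zero.1 e5).resolve_left hNb)).resolve_left
        hNb)).resolve_left hNb
  have e7 : X ∣ Z := by
    rw [X_dvd_iff, coeff_zero_eq_eval_zero]; exact e6
  obtain ⟨T, rfl⟩ := e7
  exact ⟨T, by ring⟩

/-- **Clausen's identity for Legendre polynomials**, over a field of characteristic zero. -/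
theorem legendre_sq [CharZero K] (m : ℕ) :
    Ph m (dK K m) 0 (X : K[X]) 1 * Ph m (dK K m) 0 (X : K[X]) 1 = Sw m (vK K m) 0 := by
  rw [← sub_eq_zero]
  set Y := Ph m (dK K m) 0 (X : K[X]) 1 * Ph m (dK K m) 0 (X : K[X]) 1 - Sw m (vK K m) 0 with hYdef
  have hY : TN ((m : K) * (m + 1)) Y = 0 := by
    rw [hYdef, TN_sub, TNff, TNP, sub_zero]
  have h0 : Y.eval 0 = 0 := by
    rw [hYdef, eval_sub, eval_mul, eval_Sw_zero m _ 0 (by ring), eval_Ph_zero m _ _ _ _ eval_X,
      eval_one]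
    simp [dK, vK, dl]
  have all : ∀ j : ℕ, X ^ (j + 1) ∣ Y := by
    intro j
    induction j with
    | zero =>
      rw [zero_add, pow_one, X_dvd_iff, coeff_zero_eq_eval_zero]; exact h0
    | succ j ih => exact stepN _ Y hY j ih
  ext i
  rw [coeff_zero]
  exact X_pow_dvd_iff.1 (all i) i (Nat.lt_succ_self i)

theorem legendre_sq_field [CharZero K] (m : ℕ) (x : K) :
    (∑ k ∈ range (m + 1), (dl m k : K) * x ^ k) ^ 2 =
      ∑ k ∈ range (m + 1), (dl m k : K) * (k.centralBinom : K) * (x * (1 - x)) ^ k := by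
  have h := congrArg (eval x) (legendre_sq (K := K) m)
  rw [eval_mul] at h
  have e1 : (Ph m (dK K m) 0 (X : K[X]) 1).eval x = ∑ k ∈ range (m + 1), (dl m k : K) * x ^ k := by
    unfold Ph
    rw [eval_finsetSum]
    refine sum_congr rfl fun k _ => ?_
    simp [dK]
  have e2 : (Sw m (vK K m) 0).eval x = ∑ k ∈ range (m + 1),
      (dl m k : K) * (k.centralBinom : K) * (x * (1 - x)) ^ k := by
    unfold Sw W
    rw [eval_finsetSum]
    refine sum_congr rfl fun k _ => ?_
    simp [vK]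
  rw [e1, e2] at h
  rw [pow_two]
  exact h

/-- Clausen's identity in every commutative ring. -/
theorem legendre_sq_ring {R : Type*} [CommRing R] (m : ℕ) (x : R) :
    (∑ k ∈ range (m + 1), (dl m k : R) * x ^ k) ^ 2 =
      ∑ k ∈ range (m + 1), (dl m k : R) * (k.centralBinom : R) * (x * (1 - x)) ^ k := by
  have h : (∑ k ∈ range (m + 1), (dl m k : ℤ[X]) * X ^ k) ^ 2 =
      ∑ k ∈ range (m + 1), (dl m k : ℤ[X]) * (k.centralBinom : ℤ[X]) * (X * (1 - X)) ^ k := by
    apply IsFractionRing.injective ℤ[X] (FractionRing ℤ[X])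
    have := legendre_sq_field (K := FractionRing ℤ[X]) m (algebraMap ℤ[X] (FractionRing ℤ[X]) X)
    simp only [map_sum, map_mul, map_pow, map_intCast, map_natCast, map_sub, map_one]
    exact this
  have h2 := congrArg (aeval x) h
  simp only [map_sum, map_mul, map_pow, map_intCast, map_natCast, map_sub, map_one, aeval_X] at h2
  exact h2

/-- the homogeneous form. -/
theorem legendre_sq_hom {R : Type*} [CommRing R] (m : ℕ) (t : R) :
    (∑ k ∈ range (m + 1), (dl m k : R) * t ^ (m - k)) ^ 2 =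
      ∑ k ∈ range (m + 1), (dl m k : R) * (k.centralBinom : R) * (t - 1) ^ k
        * t ^ (2 * (m - k)) := by
  have key : ∀ (L : Type) [Field L] [CharZero L] (t : L), t ≠ 0 →
      (∑ k ∈ range (m + 1), (dl m k : L) * t ^ (m - k)) ^ 2 =
      ∑ k ∈ range (m + 1), (dl m k : L) * (k.centralBinom : L) * (t - 1) ^ k
        * t ^ (2 * (m - k)) := by
    intro L _ _ t ht
    have h := legendre_sq_field m (t⁻¹)
    have e1 : (∑ k ∈ range (m + 1), (dl m k : L) * t ^ (m - k)) =
        t ^ m * ∑ k ∈ range (m + 1), (dl m k : L) * (t⁻¹) ^ k := by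
      rw [mul_sum]
      refine sum_congr rfl fun k hk => ?_
      have hk' : k ≤ m := by simpa [Nat.lt_succ_iff] using hk
      have : t ^ m = t ^ (m - k) * t ^ k := by rw [← pow_add]; congr 1; omega
      have h2 : t ^ k * (t⁻¹) ^ k = 1 := by rw [← mul_pow, mul_inv_cancel₀ ht, one_pow]
      rw [this]
      linear_combination (-(dl m k : L) * t ^ (m - k)) * h2
    rw [e1, mul_pow, h, mul_sum]
    refine sum_congr rfl fun k hk => ?_
    have hk' : k ≤ m := by simpa [Nat.lt_succ_iff] using hk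
    have h3 : (t ^ m) ^ 2 = t ^ (2 * (m - k)) * (t ^ 2) ^ k := by
      rw [← pow_mul, ← pow_mul, ← pow_add]; congr 1; omega
    have h4 : (t ^ 2) ^ k * (t⁻¹ * (1 - t⁻¹)) ^ k = (t - 1) ^ k := by
      rw [← mul_pow]
      congr 1
      field_simp
    rw [h3, ← h4]
    ring
  have h : (∑ k ∈ range (m + 1), (dl m k : ℤ[X]) * X ^ (m - k)) ^ 2 =
      ∑ k ∈ range (m + 1), (dl m k : ℤ[X]) * (k.centralBinom : ℤ[X]) * (X - 1) ^ k
        * X ^ (2 * (m - k)) := by
    apply IsFractionRing.injective ℤ[X] (FractionRing ℤ[X])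
    have := key (FractionRing ℤ[X]) (algebraMap ℤ[X] (FractionRing ℤ[X]) X) (by
      rw [Ne, IsFractionRing.to_map_eq_zero_iff]
      exact X_ne_zero)
    simp only [map_sum, map_mul, map_pow, map_intCast, map_natCast, map_sub, map_one]
    exact this
  have h2 := congrArg (aeval t) h
  simp only [map_sum, map_mul, map_pow, map_intCast, map_natCast, map_sub, map_one, aeval_X] at h2
  exact h2

end Pool.Agent.Q267.Seven
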