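import Pool.Agent.Q267.Seven.Inert

/-!
The split case modulo `p^2`: `∑ d_k α^(4(m-k)) = α^(4m) ∑ d_k α^(4k)` for every root `α` of
`X^2 - X + 2` in `ZMod (p^2)`.
-/

namespace Pool.Agent.Q267.Seven

open Polynomial Finset Pool.Agent.Q267.Landen

variable (p : ℕ) [hp : Fact p.Prime]

/-- reduction modulo `p`. -/
def red : ZMod (p ^ 2) →+* ZMod p := ZMod.castHom (dvd_pow_self p two_ne_zero) (ZMod p)

omit hp in
theorem p_sq : ((p : ℕ) : ZMod (p ^ 2)) ^ 2 = 0 := by
  have := ZMod.natCast_self (p ^ 2)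
  push_cast at this
  exact this

/-- `p x` only depends on `x` modulo `p`. -/
theorem p_mul_eq (x y : ZMod (p ^ 2)) (h : red p x = red p y) :
    (p : ZMod (p ^ 2)) * x = p * y := by
  obtain ⟨n, hn⟩ : ∃ n : ℤ, (n : ZMod (p ^ 2)) = x - y := ZMod.intCast_surjective _
  have h1 : red p (x - y) = 0 := by rw [map_sub, h, sub_self]
  rw [← hn, map_intCast, ZMod.intCast_zmod_eq_zero_iff_dvd] at h1
  obtain ⟨c, hc⟩ := h1
  rw [← sub_eq_zero, ← mul_sub, ← hn, hc]
  push_cast
  rw [← mul_assoc, ← pow_two, p_sq, zero_mul]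

theorem unit_cast (j : ℕ) (h0 : 0 < j) (hj : j < p) :
    ((j : ℕ) : ZMod (p ^ 2)) * ((j : ℕ) : ZMod (p ^ 2))⁻¹ = 1 := by
  apply ZMod.coe_mul_inv_eq_one
  apply Nat.Coprime.pow_right
  exact ((Nat.Prime.coprime_iff_not_dvd hp.out).2 (Nat.not_dvd_of_pos_of_lt h0 hj)).symm

/-- harmonic numbers modulo `p^2`. -/
def hR (n : ℕ) : ZMod (p ^ 2) := ∑ i ∈ range n, ((i + 1 : ℕ) : ZMod (p ^ 2))⁻¹

theorem red_hR (n : ℕ) (hn : n < p) : red p (hR p n) = Hh (ZMod p) n := by
  unfold hR Hh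
  rw [map_sum]
  refine sum_congr rfl fun i hi => ?_
  have hi' : i < n := by simpa using hi
  have h := unit_cast p (i + 1) (by omega) (by omega)
  have h2 := congrArg (red p) h
  rw [map_mul, map_one, map_natCast] at h2
  exact eq_inv_of_mul_eq_one_right h2

/-- squares of binomial coefficients modulo `p^2`. -/
def cR (m k : ℕ) : ZMod (p ^ 2) := ((m.choose k : ℕ) : ZMod (p ^ 2)) ^ 2

theorem dl_R (m : ℕ) (hpm : p = 2 * m + 1) (k : ℕ) (hk : k ≤ m) :
    (dl m k : ZMod (p ^ 2)) = cR p m k * (1 - p * (hR p m - hR p (m - k))) := by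
  induction k with
  | zero => simp [dl, cR]
  | succ k ih =>
    have ih := ih (by omega)
    have h1 := congrArg (Int.cast : ℤ → ZMod (p ^ 2)) (dl_succ m k)
    push_cast at h1
    have h2 : cR p m (k + 1) * ((k : ZMod (p ^ 2)) + 1) ^ 2 =
        cR p m k * ((m : ZMod (p ^ 2)) - k) ^ 2 := by
      have h := Nat.choose_succ_right_eq m k
      have h' : ((m.choose (k + 1) * (k + 1) : ℕ) : ZMod (p ^ 2)) =
        ((m.choose k * (m - k) : ℕ) : ZMod (p ^ 2)) := by rw [h]
      rw [Nat.cast_mul, Nat.cast_mul, Nat.cast_sub (by omega)] at h'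
      push_cast at h'
      unfold cR
      rw [← mul_pow, h', mul_pow]
    have hu := unit_cast p (k + 1) (by omega) (by omega)
    have hv := unit_cast p (m - k) (by omega) (by omega)
    have hmk : ((m - k : ℕ) : ZMod (p ^ 2)) = (m : ZMod (p ^ 2)) - k := by
      rw [Nat.cast_sub (by omega)]
    have hH : hR p (m - k) = hR p (m - (k + 1)) + ((m - k : ℕ) : ZMod (p ^ 2))⁻¹ := by
      have e : m - k = (m - (k + 1)) + 1 := by omega
      unfold hR
      rw [e, sum_range_succ]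
    have hpp := p_sq p
    have hpm' : (p : ZMod (p ^ 2)) = 2 * m + 1 := by
      have := congrArg (Nat.cast : ℕ → ZMod (p ^ 2)) hpm
      push_cast at this
      exact this
    rw [hmk] at hv hH
    have hcanc : IsUnit (((k : ZMod (p ^ 2)) + 1) ^ 2) := by
      apply IsUnit.pow
      push_cast at hu
      exact IsUnit.of_mul_eq_one _ hu
    apply hcanc.mul_right_cancel
    rw [h1, ih]
    set P : ZMod (p ^ 2) := (p : ZMod (p ^ 2))
    set M : ZMod (p ^ 2) := (m : ZMod (p ^ 2))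
    set k' : ZMod (p ^ 2) := (k : ZMod (p ^ 2))
    set h0 := hR p m
    set hk1 := hR p (m - k)
    set hk2 := hR p (m - (k + 1))
    set iv := (M - k')⁻¹
    have e1 : k' ^ 2 + k' - M * (M + 1) = (M - k') ^ 2 - P * (M - k') := by
      linear_combination (M - k') * hpm'
    rw [e1]
    rw [show hk2 = hk1 - iv by linear_combination -hH]
    linear_combination (-(1 - P * (h0 - (hk1 - iv)))) * h2
      + (M - k') * cR p m k * (h0 - hk1) * hpp + P * cR p m k * (M - k') * hv

theorem dl_diff (m : ℕ) (hpm : p = 2 * m + 1) (k : ℕ) (hk : k ≤ m) :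
    (dl m (m - k) : ZMod (p ^ 2)) - (dl m k : ZMod (p ^ 2)) =
      - (p * (cR p m k * (hR p (m - k) - hR p k))) := by
  rw [dl_R p m hpm k hk, dl_R p m hpm (m - k) (by omega), Nat.sub_sub_self hk]
  have : cR p m (m - k) = cR p m k := by
    unfold cR
    rw [Nat.choose_symm hk]
  rw [this]
  ring

/-- the key relation for a root of `X^2 - X + 2` modulo `p^2`. -/
theorem split_key (m : ℕ) (hpm : p = 2 * m + 1) (h3 : 3 ≤ p) (h7 : p ≠ 7) (a : ℤ)
    (ha : (a : ZMod (p ^ 2)) ^ 2 - (a : ZMod (p ^ 2)) + 2 = 0) :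
    (a : ZMod (p ^ 2)) ^ 2 * ∑ k ∈ range (m + 1), (dl m k : ZMod (p ^ 2))
        * ((a : ZMod (p ^ 2)) ^ 4) ^ (m - k) =
      (a : ZMod (p ^ 2)) ^ (2 * p) * ∑ k ∈ range (m + 1), (dl m k : ZMod (p ^ 2))
        * ((a : ZMod (p ^ 2)) ^ 4) ^ k := by
  have hodd : Odd p := ⟨m, hpm⟩
  have h2 : (2 : ZMod p) ≠ 0 := by
    have := cast_ne (K := ZMod p) p 2 (by omega) (by omega)
    exact_mod_cast this
  set α : ZMod (p ^ 2) := (a : ZMod (p ^ 2)) with hα
  set w : ZMod p := (a : ZMod p) with hw'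
  have hred : red p α = w := by rw [hα, map_intCast]
  have hw : w ^ 2 - w + 2 = 0 := by
    have := congrArg (red p) ha
    rw [map_add, map_sub, map_pow, hred, map_zero, map_ofNat] at this
    exact this
  have hw0 : w ≠ 0 := by
    intro h
    apply h2
    rw [h] at hw
    linear_combination hw
  -- E and F
  set E := ∑ k ∈ range (m + 1), (dl m k : ZMod (p ^ 2)) * (α ^ 4) ^ (m - k) with hE
  set F := ∑ k ∈ range (m + 1), (dl m k : ZMod (p ^ 2)) * (α ^ 4) ^ k with hF
  set G := ∑ k ∈ range (m + 1), (cR p m k * (hR p (m - k) - hR p k)) * (α ^ 4) ^ k with hG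
  have hEF : E - F = - (p * G) := by
    have : E = ∑ k ∈ range (m + 1), (dl m (m - k) : ZMod (p ^ 2)) * (α ^ 4) ^ k := by
      rw [hE, ← sum_range_reflect]
      refine sum_congr rfl fun k hk => ?_
      have hk' : k ≤ m := by simpa [Nat.lt_succ_iff] using hk
      rw [show m + 1 - 1 - k = m - k by omega, Nat.sub_sub_self hk']
    rw [this, hF, hG, mul_sum, ← sum_sub_distrib, ← sum_neg_distrib]
    refine sum_congr rfl fun k hk => ?_
    have hk' : k ≤ m := by simpa [Nat.lt_succ_iff] using hk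
    have h := dl_diff p m hpm k hk'
    linear_combination (α ^ 4) ^ k * h
  -- reductions
  have w4 : w ^ 4 = 2 - 3 * w := by linear_combination (w ^ 2 + w - 1) * hw
  have hredF : red p F = (Ph m (cc (ZMod p) m) 0 (X : (ZMod p)[X]) 1).eval (2 - 3 * w) := by
    rw [hF, map_sum]
    unfold Ph
    rw [eval_finsetSum]
    refine sum_congr rfl fun k hk => ?_
    have hk' : k ≤ m := by simpa [Nat.lt_succ_iff] using hk
    rw [map_mul, map_pow, map_pow, hred, map_intCast, dl_mod p m hpm k hk', w4]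
    simp
  have hredG : red p G = (Ph m (dd (ZMod p) m) 0 (X : (ZMod p)[X]) 1).eval (2 - 3 * w) := by
    rw [hG, map_sum]
    unfold Ph
    rw [eval_finsetSum]
    refine sum_congr rfl fun k hk => ?_
    have hk' : k ≤ m := by simpa [Nat.lt_succ_iff] using hk
    rw [map_mul, map_mul, map_sub, map_pow, map_pow, hred, w4, red_hR p _ (by omega),
      red_hR p _ (by omega)]
    unfold cR
    rw [map_pow, map_natCast]
    simp [dd, cc]
  -- the relation modulo p
  have e0 : (w ^ 2) ^ m = 1 := by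
    rw [← pow_mul, show 2 * m = p - 1 by omega]
    exact ZMod.pow_card_sub_one_eq_one hw0
  have e1 := point_I (K := ZMod p) p m hpm h2 w hw
  rw [ZMod.pow_card, e0, Lam_eval p m hpm, ← hredF, ← hredG, one_mul] at e1
  have c1 : (L1 (ZMod p) p).eval (-1 - w) = red p ((Lz p (-1 - a) : ℤ) : ZMod (p ^ 2)) := by
    rw [map_intCast, Lz_cast]
    push_cast
    rfl
  have c2 : (L1 (ZMod p) p).eval (-(-1 - w)) = red p ((Lz p (-(-1 - a)) : ℤ) : ZMod (p ^ 2)) := by
    rw [map_intCast, Lz_cast]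
    push_cast
    rfl
  rw [c1, c2] at e1
  have e2 : red p (((-1 - α) - 2) * G) = red p (-((((Lz p (-1 - a) : ℤ) : ZMod (p ^ 2))
      + ((Lz p (-(-1 - a)) : ℤ) : ZMod (p ^ 2))) * F)) := by
    rw [map_mul, map_sub, map_sub, map_neg, map_one, map_ofNat, hred, map_neg, map_mul, map_add]
    linear_combination e1
  have e3 := p_mul_eq p _ _ e2
  have l1 := congrArg (Int.cast : ℤ → ZMod (p ^ 2)) (p_mul_Lz p hodd (-1 - a))
  have l2 := congrArg (Int.cast : ℤ → ZMod (p ^ 2)) (p_mul_Lz p hodd (-(-1 - a)))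
  push_cast at l1 l2
  rw [← hα] at l1 l2
  -- Fermat
  have fA : (p : ℤ) ∣ a ^ p - a := by
    rw [← ZMod.intCast_zmod_eq_zero_iff_dvd]
    push_cast
    rw [ZMod.pow_card, sub_self]
  obtain ⟨d, hd⟩ := fA
  have hd' := congrArg (Int.cast : ℤ → ZMod (p ^ 2)) hd
  push_cast at hd'
  rw [← hα] at hd'
  set δ : ZMod (p ^ 2) := (p : ZMod (p ^ 2)) * (d : ZMod (p ^ 2)) with hδ
  have hA : α ^ p = α + δ := by linear_combination hd'
  have dd0 : δ ^ 2 = 0 := by rw [hδ, mul_pow, p_sq, zero_mul]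
  have x3 : 1 - (-1 - α) = - α ^ 3 := by linear_combination (α + 1) * ha
  have x4 : 1 - (-(-1 - α)) = - α := by ring
  have y3 : (1 - (-1 - α)) ^ p = - (α + δ) ^ 3 := by
    rw [x3, hodd.neg_pow, ← pow_mul, mul_comm, pow_mul, hA]
  have y4 : (1 - (-(-1 - α))) ^ p = - (α + δ) := by rw [x4, hodd.neg_pow, hA]
  have y6 : (-(-1 - α)) ^ p = - (-1 - α) ^ p := hodd.neg_pow _
  rw [y3] at l1
  rw [y4, y6] at l2
  have hsum : (p : ZMod (p ^ 2)) * (((Lz p (-1 - a) : ℤ) : ZMod (p ^ 2))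
      + ((Lz p (-(-1 - a)) : ℤ) : ZMod (p ^ 2))) = (3 * α - 5) * δ := by
    linear_combination l1 + l2 + (3 * α + δ) * dd0 + (α + 1 + 3 * δ) * ha
  have key : ((-1 - α) - 2) * (E - F) = (3 * α - 5) * δ * F := by
    rw [hEF]
    linear_combination -e3 + F * hsum
  -- 14 is a unit
  have h14 : IsUnit (14 : ZMod (p ^ 2)) := by
    have : ((14 : ℕ) : ZMod (p ^ 2)) * ((14 : ℕ) : ZMod (p ^ 2))⁻¹ = 1 := by
      apply ZMod.coe_mul_inv_eq_one
      apply Nat.Coprime.pow_right
      apply Nat.Coprime.symm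
      rw [Nat.Prime.coprime_iff_not_dvd hp.out]
      intro h
      rw [show 14 = 2 * 7 by norm_num, hp.out.dvd_mul] at h
      rcases h with h | h
      · have := Nat.le_of_dvd (by norm_num) h
        omega
      · exact h7 ((Nat.prime_dvd_prime_iff_eq hp.out (by norm_num)).1 h)
    push_cast at this
    exact IsUnit.of_mul_eq_one _ this
  have key2 : E - F = (1 - α) * δ * F := by
    apply h14.mul_left_cancel
    linear_combination (-(4 - α)) * key + ((E - F) + 3 * δ * F) * ha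
  have hA2 : α ^ (2 * p) = α ^ 2 + 2 * α * δ := by
    rw [mul_comm, pow_mul, hA]
    linear_combination dd0
  rw [hA2]
  linear_combination α ^ 2 * key2 - α * δ * F * ha

end Pool.Agent.Q267.Seven
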