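import Mathlib

/-!
Alternating sums of squares of binomial coefficients modulo `p^2`, and the reduction of
`∑ (-1)^n a(n)`, `a(n) = ∑ (-16)^k (n choose k)^2 (n-k choose k)^2`, to sums of cubes of central
binomial coefficients.
-/

namespace Pool.Agent.Q267.Seven

open Finset

/-- telescoping with alternating signs. -/
theorem alt_tele (Q : ℕ → ℤ) (N : ℕ) :
    ∑ n ∈ range N, (-1 : ℤ) ^ n * (Q n + Q (n + 1)) = Q 0 - (-1) ^ N * Q N := by
  induction N with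
  | zero => simp
  | succ N ih => rw [sum_range_succ, ih, pow_succ]; ring

/-- `U_j = ∑_{n<p} (-1)^n (n choose j)^2`. -/
def U (p j : ℕ) : ℤ := ∑ n ∈ range p, (-1 : ℤ) ^ n * (n.choose j : ℤ) ^ 2

/-- `V_j = ∑_{n<p} (-1)^n (2n - j + 1) (n choose j)^2`. -/
def V (p j : ℕ) : ℤ := ∑ n ∈ range p, (-1 : ℤ) ^ n * ((2 * (n : ℤ) - j + 1) * (n.choose j : ℤ) ^ 2)

theorem ch1 (n j : ℕ) : ((n : ℤ) - j) * (n.choose j : ℤ) = ((j : ℤ) + 1) * (n.choose (j + 1) : ℤ) := by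
  rcases lt_or_ge n j with h | h
  · rw [Nat.choose_eq_zero_of_lt h, Nat.choose_eq_zero_of_lt (by omega)]; simp
  · have h1 := Nat.choose_succ_right_eq n j
    have h2 : ((n.choose (j + 1) * (j + 1) : ℕ) : ℤ) = ((n.choose j * (n - j) : ℕ) : ℤ) := by
      rw [h1]
    rw [Nat.cast_mul, Nat.cast_mul, Nat.cast_sub h] at h2
    push_cast at h2
    linear_combination -h2

theorem ch2 (n j : ℕ) : ((n : ℤ) + 1) * (n.choose j : ℤ) =
    ((j : ℤ) + 1) * ((n + 1).choose (j + 1) : ℤ) := by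
  have h1 := Nat.add_one_mul_choose_eq n j
  have h2 : (((n + 1) * n.choose j : ℕ) : ℤ) = (((n + 1).choose (j + 1) * (j + 1) : ℕ) : ℤ) := by
    rw [h1]
  push_cast at h2
  linear_combination h2

/-- the certificate for `U`. -/
theorem certU (n j : ℕ) :
    ((j : ℤ) + 2) * (4 * ((j : ℤ) + 2) * (n.choose (j + 2) : ℤ) ^ 2
      + ((j : ℤ) + 1) * (n.choose j : ℤ) ^ 2) =
    (n.choose (j + 1) : ℤ) ^ 2 * (2 * (n : ℤ) ^ 2 - (6 * j + 8) * n + (j + 1) * (5 * j + 8))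
      + ((n + 1).choose (j + 1) : ℤ) ^ 2 * (2 * ((n : ℤ) + 1) ^ 2 - (6 * j + 8) * (n + 1)
        + (j + 1) * (5 * j + 8)) := by
  have a0 := ch1 n j
  have a1 := ch1 n (j + 1)
  have a2 := ch2 n j
  push_cast at a1
  rw [show j + 1 + 1 = j + 2 by ring] at a1
  have hj : ((j : ℤ) + 1) ^ 2 ≠ 0 := by positivity
  apply mul_left_cancel₀ hj
  set c0 := (n.choose j : ℤ)
  set c1 := (n.choose (j + 1) : ℤ)
  set c2 := (n.choose (j + 2) : ℤ)
  set d1 := ((n + 1).choose (j + 1) : ℤ)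
  set y := (n : ℤ)
  set J := (j : ℤ)
  have e1 : ((J + 1) * c1) ^ 2 = ((y - J) * c0) ^ 2 := by rw [a0]
  have e2 : ((J + 1) * (J + 2) * c2) ^ 2 = ((y - J - 1) * ((y - J) * c0)) ^ 2 := by
    have : (J + 1) * (J + 2) * c2 = (y - J - 1) * ((J + 1) * c1) := by
      linear_combination -(J + 1) * a1
    rw [this, a0]
  have e3 : ((J + 1) * d1) ^ 2 = ((y + 1) * c0) ^ 2 := by rw [a2]
  linear_combination 4 * e2 - (2 * y ^ 2 - (6 * J + 8) * y + (J + 1) * (5 * J + 8)) * e1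
    - (2 * (y + 1) ^ 2 - (6 * J + 8) * (y + 1) + (J + 1) * (5 * J + 8)) * e3

/-- the certificate for `V`. -/
theorem certV (n j : ℕ) :
    ((j : ℤ) + 2) ^ 2 * (4 * ((j : ℤ) + 1) * ((2 * (n : ℤ) - j - 1) * (n.choose (j + 2) : ℤ) ^ 2)
      + ((j : ℤ) + 2) * ((2 * (n : ℤ) - j + 1) * (n.choose j : ℤ) ^ 2)) =
    ((j : ℤ) + 1) * ((n.choose (j + 1) : ℤ) ^ 2 * (4 * (n : ℤ) ^ 3 - (14 * j + 20) * (n : ℤ) ^ 2
        + 4 * (j + 1) * (4 * j + 7) * n - (j + 2) * (5 * j ^ 2 + 8 * j + 2))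
      + ((n + 1).choose (j + 1) : ℤ) ^ 2 * (4 * ((n : ℤ) + 1) ^ 3 - (14 * j + 20) * ((n : ℤ) + 1) ^ 2
        + 4 * (j + 1) * (4 * j + 7) * (n + 1) - (j + 2) * (5 * j ^ 2 + 8 * j + 2))) := by
  have a0 := ch1 n j
  have a1 := ch1 n (j + 1)
  have a2 := ch2 n j
  push_cast at a1
  rw [show j + 1 + 1 = j + 2 by ring] at a1
  have hj : ((j : ℤ) + 1) ≠ 0 := by positivity
  apply mul_left_cancel₀ hj
  set c0 := (n.choose j : ℤ)
  set c1 := (n.choose (j + 1) : ℤ)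
  set c2 := (n.choose (j + 2) : ℤ)
  set d1 := ((n + 1).choose (j + 1) : ℤ)
  set y := (n : ℤ)
  set J := (j : ℤ)
  have e1 : ((J + 1) * c1) ^ 2 = ((y - J) * c0) ^ 2 := by rw [a0]
  have e2 : ((J + 1) * (J + 2) * c2) ^ 2 = ((y - J - 1) * ((y - J) * c0)) ^ 2 := by
    have : (J + 1) * (J + 2) * c2 = (y - J - 1) * ((J + 1) * c1) := by
      linear_combination -(J + 1) * a1
    rw [this, a0]
  have e3 : ((J + 1) * d1) ^ 2 = ((y + 1) * c0) ^ 2 := by rw [a2]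
  linear_combination 4 * (2 * y - J - 1) * e2
    - (4 * y ^ 3 - (14 * J + 20) * y ^ 2 + 4 * (J + 1) * (4 * J + 7) * y
      - (J + 2) * (5 * J ^ 2 + 8 * J + 2)) * e1
    - (4 * (y + 1) ^ 3 - (14 * J + 20) * (y + 1) ^ 2 + 4 * (J + 1) * (4 * J + 7) * (y + 1)
      - (J + 2) * (5 * J ^ 2 + 8 * J + 2)) * e3

theorem sq_dvd (p : ℕ) (hp : p.Prime) (j : ℕ) (hj : j + 1 < p) :
    ((p : ℤ) ^ 2) ∣ (p.choose (j + 1) : ℤ) ^ 2 := by
  have h := hp.dvd_choose_self (k := j + 1) (by omega) hj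
  exact pow_dvd_pow_of_dvd (Int.natCast_dvd_natCast.2 h) 2

theorem U_rec (p : ℕ) (hp : p.Prime) (hodd : Odd p) (j : ℕ) (hj : j + 1 < p) :
    ((p : ℤ) ^ 2) ∣ ((j : ℤ) + 2) * (4 * ((j : ℤ) + 2) * U p (j + 2) + ((j : ℤ) + 1) * U p j) := by
  have e : ((j : ℤ) + 2) * (4 * ((j : ℤ) + 2) * U p (j + 2) + ((j : ℤ) + 1) * U p j) =
      (p.choose (j + 1) : ℤ) ^ 2 * (2 * (p : ℤ) ^ 2 - (6 * j + 8) * p + (j + 1) * (5 * j + 8)) := by
    have h := alt_tele (fun n => (n.choose (j + 1) : ℤ) ^ 2 * (2 * (n : ℤ) ^ 2 - (6 * j + 8) * n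
      + (j + 1) * (5 * j + 8))) p
    rw [hodd.neg_one_pow] at h
    have h2 : ∑ n ∈ range p, (-1 : ℤ) ^ n * (((j : ℤ) + 2) * (4 * ((j : ℤ) + 2)
        * (n.choose (j + 2) : ℤ) ^ 2 + ((j : ℤ) + 1) * (n.choose j : ℤ) ^ 2)) =
        ((j : ℤ) + 2) * (4 * ((j : ℤ) + 2) * U p (j + 2) + ((j : ℤ) + 1) * U p j) := by
      unfold U
      rw [mul_sum, mul_sum, ← sum_add_distrib, mul_sum]
      refine sum_congr rfl fun n _ => ?_
      ring
    rw [← h2]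
    have h3 : ∀ n ∈ range p, (-1 : ℤ) ^ n * (((j : ℤ) + 2) * (4 * ((j : ℤ) + 2)
        * (n.choose (j + 2) : ℤ) ^ 2 + ((j : ℤ) + 1) * (n.choose j : ℤ) ^ 2)) =
        (-1 : ℤ) ^ n * ((n.choose (j + 1) : ℤ) ^ 2 * (2 * (n : ℤ) ^ 2 - (6 * j + 8) * n
          + (j + 1) * (5 * j + 8)) + ((n + 1).choose (j + 1) : ℤ) ^ 2 *
          (2 * ((n + 1 : ℕ) : ℤ) ^ 2 - (6 * j + 8) * ((n + 1 : ℕ) : ℤ)
          + (j + 1) * (5 * j + 8))) := by
      intro n _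
      rw [certU]
      push_cast
      ring
    rw [sum_congr rfl h3, h]
    simp
  rw [e]
  exact Dvd.dvd.mul_right (sq_dvd p hp j hj) _

theorem V_rec (p : ℕ) (hp : p.Prime) (hodd : Odd p) (j : ℕ) (hj : j + 1 < p) :
    ((p : ℤ) ^ 2) ∣ ((j : ℤ) + 2) ^ 2 * (4 * ((j : ℤ) + 1) * V p (j + 2)
      + ((j : ℤ) + 2) * V p j) := by
  have e : ((j : ℤ) + 2) ^ 2 * (4 * ((j : ℤ) + 1) * V p (j + 2) + ((j : ℤ) + 2) * V p j) =
      (p.choose (j + 1) : ℤ) ^ 2 * (((j : ℤ) + 1) * (4 * (p : ℤ) ^ 3 - (14 * j + 20) * (p : ℤ) ^ 2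
        + 4 * (j + 1) * (4 * j + 7) * p - (j + 2) * (5 * j ^ 2 + 8 * j + 2))) := by
    have h := alt_tele (fun n => ((j : ℤ) + 1) * ((n.choose (j + 1) : ℤ) ^ 2 * (4 * (n : ℤ) ^ 3
        - (14 * j + 20) * (n : ℤ) ^ 2
        + 4 * (j + 1) * (4 * j + 7) * n - (j + 2) * (5 * j ^ 2 + 8 * j + 2)))) p
    rw [hodd.neg_one_pow] at h
    have h2 : ∑ n ∈ range p, (-1 : ℤ) ^ n * (((j : ℤ) + 2) ^ 2 * (4 * ((j : ℤ) + 1)
        * ((2 * (n : ℤ) - j - 1) * (n.choose (j + 2) : ℤ) ^ 2)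
        + ((j : ℤ) + 2) * ((2 * (n : ℤ) - j + 1) * (n.choose j : ℤ) ^ 2))) =
        ((j : ℤ) + 2) ^ 2 * (4 * ((j : ℤ) + 1) * V p (j + 2) + ((j : ℤ) + 2) * V p j) := by
      unfold V
      rw [mul_sum, mul_sum, ← sum_add_distrib, mul_sum]
      refine sum_congr rfl fun n _ => ?_
      push_cast
      ring
    rw [← h2]
    have h3 : ∀ n ∈ range p, (-1 : ℤ) ^ n * (((j : ℤ) + 2) ^ 2 * (4 * ((j : ℤ) + 1)
        * ((2 * (n : ℤ) - j - 1) * (n.choose (j + 2) : ℤ) ^ 2)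
        + ((j : ℤ) + 2) * ((2 * (n : ℤ) - j + 1) * (n.choose j : ℤ) ^ 2))) =
        (-1 : ℤ) ^ n * (((j : ℤ) + 1) * ((n.choose (j + 1) : ℤ) ^ 2 * (4 * (n : ℤ) ^ 3
        - (14 * j + 20) * (n : ℤ) ^ 2
        + 4 * (j + 1) * (4 * j + 7) * n - (j + 2) * (5 * j ^ 2 + 8 * j + 2))) +
        ((j : ℤ) + 1) * (((n + 1).choose (j + 1) : ℤ) ^ 2 * (4 * ((n + 1 : ℕ) : ℤ) ^ 3
        - (14 * j + 20) * ((n + 1 : ℕ) : ℤ) ^ 2
        + 4 * (j + 1) * (4 * j + 7) * ((n + 1 : ℕ) : ℤ) - (j + 2) * (5 * j ^ 2 + 8 * j + 2)))) := by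
      intro n _
      rw [certV]
      push_cast
      ring
    rw [sum_congr rfl h3, h]
    simp
    ring
  rw [e]
  exact Dvd.dvd.mul_right (sq_dvd p hp j hj) _

theorem cop_of_lt (p : ℕ) (hp : p.Prime) (n : ℕ) (h0 : 0 < n) (hn : n < p) :
    IsCoprime ((p : ℤ) ^ 2) (n : ℤ) := by
  apply IsCoprime.pow_left
  rw [Nat.isCoprime_iff_coprime]
  exact (Nat.Prime.coprime_iff_not_dvd hp).2 (Nat.not_dvd_of_pos_of_lt h0 hn)

/-- `16^k U_{2k} = (-1)^k C(2k,k)` modulo `p^2`. -/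
theorem U_even (p : ℕ) (hp : p.Prime) (hodd : Odd p) (k : ℕ) (hk : 2 * k < p) :
    ((p : ℤ) ^ 2) ∣ 16 ^ k * U p (2 * k) - (-1) ^ k * (k.centralBinom : ℤ) := by
  induction k with
  | zero =>
    have : U p 0 = 1 := by
      unfold U
      simp only [Nat.choose_zero_right, Nat.cast_one, one_pow, mul_one]
      obtain ⟨m, rfl⟩ := hodd
      clear hp hk
      induction m with
      | zero => simp
      | succ m ih =>
        rw [show 2 * (m + 1) + 1 = 2 * m + 1 + 1 + 1 by ring, sum_range_succ, sum_range_succ, ih,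
          pow_succ, pow_succ]
        ring
    simp [this]
  | succ k ih =>
    have ih := ih (by omega)
    have h1 := U_rec p hp hodd (2 * k) (by omega)
    have h2 := Nat.succ_mul_centralBinom_succ k
    have h2' : (((k + 1) * (k + 1).centralBinom : ℕ) : ℤ) =
      ((2 * (2 * k + 1) * k.centralBinom : ℕ) : ℤ) := by rw [h2]
    push_cast at h2' h1
    have c1 := cop_of_lt p hp (k + 1) (by omega) (by omega)
    have c2 := cop_of_lt p hp (2 * k + 2) (by omega) (by omega)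
    push_cast at c1 c2
    have h3 := c2.dvd_of_dvd_mul_left h1
    apply c1.dvd_of_dvd_mul_left
    rw [show 2 * (k + 1) = 2 * k + 2 by ring]
    have e : ((k : ℤ) + 1) * (16 ^ (k + 1) * U p (2 * k + 2)
        - (-1) ^ (k + 1) * ((k + 1).centralBinom : ℤ)) =
        2 * 16 ^ k * (4 * (2 * (k : ℤ) + 2) * U p (2 * k + 2) + (2 * (k : ℤ) + 1) * U p (2 * k))
        - 2 * (2 * (k : ℤ) + 1) * (16 ^ k * U p (2 * k) - (-1) ^ k * (k.centralBinom : ℤ)) := by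
      rw [pow_succ, pow_succ]
      linear_combination (-1) ^ k * h2'
    rw [e]
    exact dvd_sub (Dvd.dvd.mul_left h3 _) (Dvd.dvd.mul_left ih _)

/-- `C(2k,k) V_{2k} = (-1)^k p` modulo `p^2`. -/
theorem V_even (p : ℕ) (hp : p.Prime) (hodd : Odd p) (k : ℕ) (hk : 2 * k < p) :
    ((p : ℤ) ^ 2) ∣ (k.centralBinom : ℤ) * V p (2 * k) - (-1) ^ k * (p : ℤ) := by
  induction k with
  | zero =>
    have : V p 0 = p := by
      unfold V
      simp only [Nat.choose_zero_right, Nat.cast_one, one_pow, mul_one, Nat.cast_zero, sub_zero]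
      obtain ⟨m, rfl⟩ := hodd
      clear hp hk
      induction m with
      | zero => simp
      | succ m ih =>
        have e1 : (-1 : ℤ) ^ (2 * m) = 1 := by rw [pow_mul]; simp
        rw [show 2 * (m + 1) + 1 = 2 * m + 1 + 1 + 1 by ring, sum_range_succ, sum_range_succ, ih]
        simp only [pow_succ, e1]
        push_cast
        ring
    simp [this]
  | succ k ih =>
    have ih := ih (by omega)
    have h1 := V_rec p hp hodd (2 * k) (by omega)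
    have h2 := Nat.succ_mul_centralBinom_succ k
    have h2' : (((k + 1) * (k + 1).centralBinom : ℕ) : ℤ) =
      ((2 * (2 * k + 1) * k.centralBinom : ℕ) : ℤ) := by rw [h2]
    push_cast at h2' h1
    have c1 := cop_of_lt p hp (k + 1) (by omega) (by omega)
    have c2 := cop_of_lt p hp (2 * k + 2) (by omega) (by omega)
    push_cast at c1 c2
    have h3 := (c2.pow_right (n := 2)).dvd_of_dvd_mul_left h1
    apply c1.dvd_of_dvd_mul_left
    rw [show 2 * (k + 1) = 2 * k + 2 by ring]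
    have hodd2 : IsCoprime ((p : ℤ) ^ 2) 2 := by
      have := cop_of_lt p hp 2 (by omega) (by omega)
      exact_mod_cast this
    apply hodd2.dvd_of_dvd_mul_left
    have e : 2 * (((k : ℤ) + 1) * (((k + 1).centralBinom : ℤ) * V p (2 * k + 2)
        - (-1) ^ (k + 1) * (p : ℤ))) =
        (k.centralBinom : ℤ) * (4 * (2 * (k : ℤ) + 1) * V p (2 * k + 2)
          + (2 * (k : ℤ) + 2) * V p (2 * k))
        - 2 * ((k : ℤ) + 1) * ((k.centralBinom : ℤ) * V p (2 * k) - (-1) ^ k * (p : ℤ)) := by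
      rw [pow_succ]
      linear_combination 2 * V p (2 * k + 2) * h2'
    rw [e]
    exact dvd_sub (Dvd.dvd.mul_left h3 _) (Dvd.dvd.mul_left ih _)

end Pool.Agent.Q267.Seven
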