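import Pool.Agent.Q267.Seven.Alt
import Pool.Agent.Q267.Cubic.Fin

/-!
The sums `∑ (-1)^n a(n)` and `∑ (-1)^n (42 n + 37) a(n)` modulo `p^2`.
-/

namespace Pool.Agent.Q267.Seven

open Finset

/-- `a(n) = ∑ (-16)^k (n choose k)^2 (n-k choose k)^2`. -/
def a (n : ℕ) : ℤ :=
  ∑ k ∈ range (n + 1), (-16 : ℤ) ^ k * (n.choose k : ℤ) ^ 2 * ((n - k).choose k : ℤ) ^ 2

theorem choose_prod (n k : ℕ) : n.choose k * (n - k).choose k = n.choose (2 * k) * k.centralBinom := by
  rcases le_or_gt (2 * k) n with h | h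
  · have := Nat.choose_mul (n := n) (k := 2 * k) (s := k) (by omega)
    rw [Nat.centralBinom, this, show 2 * k - k = k by omega]
  · rw [Nat.choose_eq_zero_of_lt h, Nat.choose_eq_zero_of_lt (show n - k < k by omega)]
    simp

theorem a_eq (m n : ℕ) (hn : n < 2 * m + 1) : a n =
    ∑ k ∈ range (m + 1), (-16 : ℤ) ^ k * (k.centralBinom : ℤ) ^ 2 * (n.choose (2 * k) : ℤ) ^ 2 := by
  have key : ∀ k : ℕ, (-16 : ℤ) ^ k * (n.choose k : ℤ) ^ 2 * ((n - k).choose k : ℤ) ^ 2 =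
      (-16 : ℤ) ^ k * (k.centralBinom : ℤ) ^ 2 * (n.choose (2 * k) : ℤ) ^ 2 := by
    intro k
    have h := choose_prod n k
    have h' : (n.choose k : ℤ) * ((n - k).choose k : ℤ) =
      (n.choose (2 * k) : ℤ) * (k.centralBinom : ℤ) := by exact_mod_cast h
    have : ((n.choose k : ℤ) * ((n - k).choose k : ℤ)) ^ 2 =
      ((n.choose (2 * k) : ℤ) * (k.centralBinom : ℤ)) ^ 2 := by rw [h']
    linear_combination (-16 : ℤ) ^ k * this
  unfold a
  rw [sum_congr rfl fun k _ => key k]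
  have z : ∀ M : ℕ, n < 2 * M → ∑ k ∈ range M, (-16 : ℤ) ^ k * (k.centralBinom : ℤ) ^ 2
      * (n.choose (2 * k) : ℤ) ^ 2 = ∑ k ∈ range (n + m + 2), (-16 : ℤ) ^ k
        * (k.centralBinom : ℤ) ^ 2 * (n.choose (2 * k) : ℤ) ^ 2 ∨ n + m + 2 < M := by
    intro M hM
    rcases lt_or_ge (n + m + 2) M with h | h
    · exact Or.inr h
    · left
      apply sum_subset
      · intro x hx
        simp only [mem_range] at hx ⊢
        omega
      · intro x _ hx
        simp only [mem_range, not_lt] at hx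
        rw [Nat.choose_eq_zero_of_lt (show n < 2 * x by omega)]
        simp
  have h1 := (z (n + 1) (by omega)).resolve_right (by omega)
  have h2 := (z (m + 1) (by omega)).resolve_right (by omega)
  rw [h1, h2]

theorem sum_a (m : ℕ) : ∑ n ∈ range (2 * m + 1), (-1 : ℤ) ^ n * a n =
    ∑ k ∈ range (m + 1), (-16 : ℤ) ^ k * (k.centralBinom : ℤ) ^ 2 * U (2 * m + 1) (2 * k) := by
  have : ∀ n ∈ range (2 * m + 1), (-1 : ℤ) ^ n * a n = ∑ k ∈ range (m + 1),
      (-1 : ℤ) ^ n * ((-16 : ℤ) ^ k * (k.centralBinom : ℤ) ^ 2 * (n.choose (2 * k) : ℤ) ^ 2) := by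
    intro n hn
    rw [a_eq m n (by simpa using hn), mul_sum]
  rw [sum_congr rfl this, sum_comm]
  refine sum_congr rfl fun k _ => ?_
  unfold U
  rw [mul_sum]
  refine sum_congr rfl fun n _ => ?_
  ring

theorem sum_a' (m : ℕ) : ∑ n ∈ range (2 * m + 1), (-1 : ℤ) ^ n * ((42 * (n : ℤ) + 37) * a n) =
    ∑ k ∈ range (m + 1), (-16 : ℤ) ^ k * (k.centralBinom : ℤ) ^ 2 *
      (21 * V (2 * m + 1) (2 * k) + (42 * (k : ℤ) + 16) * U (2 * m + 1) (2 * k)) := by
  have : ∀ n ∈ range (2 * m + 1), (-1 : ℤ) ^ n * ((42 * (n : ℤ) + 37) * a n) =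
      ∑ k ∈ range (m + 1), (-1 : ℤ) ^ n * ((42 * (n : ℤ) + 37) *
        ((-16 : ℤ) ^ k * (k.centralBinom : ℤ) ^ 2 * (n.choose (2 * k) : ℤ) ^ 2)) := by
    intro n hn
    rw [a_eq m n (by simpa using hn), mul_sum, mul_sum]
  rw [sum_congr rfl this, sum_comm]
  refine sum_congr rfl fun k _ => ?_
  unfold U V
  rw [mul_sum, mul_sum, ← sum_add_distrib, mul_sum]
  refine sum_congr rfl fun n _ => ?_
  push_cast
  ring

/-- reduction of the plain sum. -/
theorem sum_a_mod (p m : ℕ) (hp : p.Prime) (hpm : p = 2 * m + 1) :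
    ((p : ℤ) ^ 2) ∣ (∑ n ∈ range p, (-1 : ℤ) ^ n * a n)
      - ∑ k ∈ range (m + 1), (k.centralBinom : ℤ) ^ 3 := by
  have hodd : Odd p := ⟨m, hpm⟩
  have h := sum_a m
  rw [← hpm] at h
  rw [h, ← sum_sub_distrib]
  refine dvd_sum fun k hk => ?_
  have hk' : k ≤ m := by simpa [Nat.lt_succ_iff] using hk
  have hU := U_even p hp hodd k (by omega)
  have e : (-16 : ℤ) ^ k * (k.centralBinom : ℤ) ^ 2 * U p (2 * k) - (k.centralBinom : ℤ) ^ 3 =
      ((-1) ^ k * (k.centralBinom : ℤ) ^ 2) * (16 ^ k * U p (2 * k)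
        - (-1) ^ k * (k.centralBinom : ℤ)) := by
    have h1 : (-16 : ℤ) ^ k = (-1) ^ k * 16 ^ k := by rw [← mul_pow]; norm_num
    have h2 : (-1 : ℤ) ^ k * (-1) ^ k = 1 := by rw [← mul_pow]; norm_num
    rw [h1]
    linear_combination (k.centralBinom : ℤ) ^ 3 * h2
  rw [e]
  exact Dvd.dvd.mul_left hU _

/-- reduction of the weighted sum. -/
theorem sum_a'_mod (p m : ℕ) (hp : p.Prime) (hpm : p = 2 * m + 1) :
    ((p : ℤ) ^ 2) ∣ (∑ n ∈ range p, (-1 : ℤ) ^ n * ((42 * (n : ℤ) + 37) * a n))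
      - (21 * p * ∑ k ∈ range (m + 1), 16 ^ k * (k.centralBinom : ℤ)
        + 2 * ∑ k ∈ range (m + 1), (21 * (k : ℤ) + 8) * (k.centralBinom : ℤ) ^ 3) := by
  have hodd : Odd p := ⟨m, hpm⟩
  have h := sum_a' m
  rw [← hpm] at h
  rw [h, mul_sum, mul_sum, ← sum_add_distrib, ← sum_sub_distrib]
  refine dvd_sum fun k hk => ?_
  have hk' : k ≤ m := by simpa [Nat.lt_succ_iff] using hk
  have hU := U_even p hp hodd k (by omega)
  have hV := V_even p hp hodd k (by omega)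
  have e : (-16 : ℤ) ^ k * (k.centralBinom : ℤ) ^ 2 * (21 * V p (2 * k)
      + (42 * (k : ℤ) + 16) * U p (2 * k)) - (21 * p * (16 ^ k * (k.centralBinom : ℤ))
        + 2 * ((21 * (k : ℤ) + 8) * (k.centralBinom : ℤ) ^ 3)) =
      ((42 * (k : ℤ) + 16) * (-1) ^ k * (k.centralBinom : ℤ) ^ 2) * (16 ^ k * U p (2 * k)
        - (-1) ^ k * (k.centralBinom : ℤ)) + (21 * (-16) ^ k * (k.centralBinom : ℤ)) *
        ((k.centralBinom : ℤ) * V p (2 * k) - (-1) ^ k * (p : ℤ)) := by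
    have h1 : (-16 : ℤ) ^ k = (-1) ^ k * 16 ^ k := by rw [← mul_pow]; norm_num
    have h2 : (-1 : ℤ) ^ k * (-1) ^ k = 1 := by rw [← mul_pow]; norm_num
    rw [h1]
    linear_combination ((42 * (k : ℤ) + 16) * (k.centralBinom : ℤ) ^ 3
      + 21 * 16 ^ k * (k.centralBinom : ℤ) * p) * h2
  rw [e]
  exact dvd_add (Dvd.dvd.mul_left hU _) (Dvd.dvd.mul_left hV _)

/-- `∑_{k<n} (n+k-1 choose k)^2`. -/
def s (n : ℕ) : ℤ := ∑ k ∈ range n, ((n + k - 1).choose k : ℤ) ^ 2

theorem s_rec (N : ℕ) : 4 * (2 * (2 * ((N : ℤ) + 1) + 1) * s (N + 2) - ((N : ℤ) + 1) * s (N + 1)) =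
    (21 * ((N : ℤ) + 1) + 8) * ((N + 1).centralBinom : ℤ) ^ 2 := by
  have key : ∀ M : ℕ, ∑ k ∈ range M, (2 * (2 * ((N : ℤ) + 1) + 1) * ((N + 1 + k).choose k : ℤ) ^ 2
      - ((N : ℤ) + 1) * ((N + k).choose k : ℤ) ^ 2) * ((N : ℤ) + 1) ^ 2 =
      (M : ℤ) ^ 2 * ((N + M).choose M : ℤ) ^ 2 * (3 * ((N : ℤ) + 1) + 2 * M) := by
    intro M
    induction M with
    | zero => simp
    | succ M ih =>
      rw [sum_range_succ, ih]
      have h1 : ((N : ℤ) + 1) * ((N + 1 + M).choose M : ℤ) =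
          ((N : ℤ) + 1 + M) * ((N + M).choose M : ℤ) := by
        have := Nat.add_one_mul_choose_eq (N + M) N
        have e1 : (N + M).choose N = (N + M).choose M := Nat.choose_symm_add
        have e2 : (N + M + 1).choose (N + 1) = (N + 1 + M).choose M := by
          rw [show N + M + 1 = N + 1 + M by ring]; exact Nat.choose_symm_add
        rw [e1, e2] at this
        have h : (((N + M + 1) * (N + M).choose M : ℕ) : ℤ) =
          (((N + 1 + M).choose M * (N + 1) : ℕ) : ℤ) := by rw [this]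
        push_cast at h
        linear_combination -h
      have h2 : ((M : ℤ) + 1) * ((N + (M + 1)).choose (M + 1) : ℤ) =
          ((N : ℤ) + 1 + M) * ((N + M).choose M : ℤ) := by
        have := Nat.add_one_mul_choose_eq (N + M) M
        have h : (((N + M + 1) * (N + M).choose M : ℕ) : ℤ) =
          (((N + M + 1).choose (M + 1) * (M + 1) : ℕ) : ℤ) := by rw [this]
        rw [show N + M + 1 = N + (M + 1) by ring] at h
        push_cast at h
        linear_combination -h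
      have h1s : (((N : ℤ) + 1) * ((N + 1 + M).choose M : ℤ)) ^ 2 =
        (((N : ℤ) + 1 + M) * ((N + M).choose M : ℤ)) ^ 2 := by rw [h1]
      have h2s : (((M : ℤ) + 1) * ((N + (M + 1)).choose (M + 1) : ℤ)) ^ 2 =
        (((N : ℤ) + 1 + M) * ((N + M).choose M : ℤ)) ^ 2 := by rw [h2]
      push_cast
      linear_combination (2 * (2 * ((N : ℤ) + 1) + 1)) * h1s
        - (3 * ((N : ℤ) + 1) + 2 * (M + 1)) * h2s
  have hk := key (N + 1)
  have hN : ((N : ℤ) + 1) ^ 2 ≠ 0 := by positivity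
  apply mul_left_cancel₀ hN
  have e1 : s (N + 2) = (∑ k ∈ range (N + 1), ((N + 1 + k).choose k : ℤ) ^ 2)
      + ((N + 1).centralBinom : ℤ) ^ 2 := by
    unfold s
    rw [sum_range_succ]
    congr 1
    · refine sum_congr rfl fun k _ => ?_
      rw [show N + 2 + k - 1 = N + 1 + k by omega]
    · rw [Nat.centralBinom, show N + 2 + (N + 1) - 1 = 2 * (N + 1) by omega]
  have e2 : s (N + 1) = ∑ k ∈ range (N + 1), ((N + k).choose k : ℤ) ^ 2 := by
    unfold s
    refine sum_congr rfl fun k _ => ?_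
    rw [show N + 1 + k - 1 = N + k by omega]
  have e3 : 2 * ((N + (N + 1)).choose (N + 1) : ℤ) = ((N + 1).centralBinom : ℤ) := by
    have h1 : (N + 1).centralBinom = 2 * (N + (N + 1)).choose (N + 1) := by
      rw [Nat.centralBinom, show 2 * (N + 1) = N + (N + 1) + 1 by ring, Nat.choose_succ_succ,
        Nat.succ_eq_add_one]
      have : (N + (N + 1)).choose N = (N + (N + 1)).choose (N + 1) := Nat.choose_symm_add
      rw [this]; ring
    rw [h1]; push_cast; ring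
  have hk2 : (2 * (2 * ((N : ℤ) + 1) + 1) * (∑ k ∈ range (N + 1), ((N + 1 + k).choose k : ℤ) ^ 2)
      - ((N : ℤ) + 1) * ∑ k ∈ range (N + 1), ((N + k).choose k : ℤ) ^ 2) * ((N : ℤ) + 1) ^ 2 =
      ((N + 1 : ℕ) : ℤ) ^ 2 * ((N + (N + 1)).choose (N + 1) : ℤ) ^ 2
        * (3 * ((N : ℤ) + 1) + 2 * ((N + 1 : ℕ) : ℤ)) := by
    rw [← hk, ← sum_mul, sum_sub_distrib, mul_sum, mul_sum]
  rw [e1, e2]
  push_cast at hk2
  set A := ∑ k ∈ range (N + 1), ((N + 1 + k).choose k : ℤ) ^ 2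
  set B := ∑ k ∈ range (N + 1), ((N + k).choose k : ℤ) ^ 2
  set c := ((N + (N + 1)).choose (N + 1) : ℤ)
  rw [← e3]
  linear_combination 4 * hk2

/-- Sun's identity. -/
theorem sum_21 (n : ℕ) : ∑ k ∈ range n, (21 * (k : ℤ) + 8) * (k.centralBinom : ℤ) ^ 3 =
    4 * n * (n.centralBinom : ℤ) * s n := by
  induction n with
  | zero => simp
  | succ n ih =>
    rw [sum_range_succ, ih]
    rcases n with _ | N
    · simp [s, Nat.centralBinom]
    · have h := s_rec N
      have h2 := Nat.succ_mul_centralBinom_succ (N + 1)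
      have h2' : (((N + 1 + 1) * (N + 1 + 1).centralBinom : ℕ) : ℤ) =
        ((2 * (2 * (N + 1) + 1) * (N + 1).centralBinom : ℕ) : ℤ) := by rw [h2]
      push_cast at h2' ⊢
      rw [show N + 1 + 1 = N + 2 by ring] at *
      linear_combination (-4 * s (N + 2)) * h2' - ((N + 1).centralBinom : ℤ) * h

theorem central_mod (p : ℕ) (hp : p.Prime) (h2 : p ≠ 2) : (p : ℤ) ∣ (p.centralBinom : ℤ) - 2 := by
  have h : ∀ i ∈ range (p + 1), i ≠ 0 → i ≠ p → p ∣ (p.choose i) ^ 2 := by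
    intro i hi h0 hip
    have hi' : i < p + 1 := by simpa using hi
    exact Dvd.dvd.pow (hp.dvd_choose_self (Nat.pos_of_ne_zero h0 |>.ne') (by omega)) (by norm_num)
  have e : p.centralBinom = ∑ i ∈ range (p + 1), (p.choose i) ^ 2 := by
    rw [Nat.centralBinom]; exact (Nat.sum_range_choose_sq p).symm
  rw [e, sum_range_succ, Nat.choose_self]
  obtain ⟨q, rfl⟩ : ∃ q, p = q + 1 := ⟨p - 1, by have := hp.pos; omega⟩
  rw [sum_range_succ', Nat.choose_zero_right]
  have : (((q + 1 : ℕ) : ℤ)) ∣ ((∑ i ∈ range q, ((q + 1).choose (i + 1)) ^ 2 : ℕ) : ℤ) := by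
    rw [Int.natCast_dvd_natCast]
    refine dvd_sum fun i hi => ?_
    have hi' : i < q := by simpa using hi
    exact h (i + 1) (by simp; omega) (by omega) (by omega)
  obtain ⟨c, hc⟩ := this
  refine ⟨c, ?_⟩
  push_cast at hc ⊢
  linear_combination hc

theorem s_mod (p : ℕ) (hp : p.Prime) : (p : ℤ) ^ 2 ∣ s p - 1 := by
  unfold s
  obtain ⟨q, rfl⟩ : ∃ q, p = q + 1 := ⟨p - 1, by have := hp.pos; omega⟩
  rw [sum_range_succ']
  simp only [Nat.choose_zero_right, Nat.cast_one, one_pow, add_sub_cancel_right]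
  refine dvd_sum fun i hi => ?_
  have hi' : i < q := by simpa using hi
  apply pow_dvd_pow_of_dvd
  rw [Int.natCast_dvd_natCast]
  have h1 : (i + 1) * (q + 1 + (i + 1) - 1).choose (i + 1) =
      (q + 1) * (q + 1 + i).choose i := by
    have := Nat.choose_succ_right_eq (q + 1 + i) i
    rw [show q + 1 + (i + 1) - 1 = q + 1 + i by omega]
    rw [show q + 1 + i - i = q + 1 by omega] at this
    linarith
  have h2 : (q + 1) ∣ (i + 1) * (q + 1 + (i + 1) - 1).choose (i + 1) := ⟨_, h1⟩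
  rcases (Nat.Prime.dvd_mul hp).1 h2 with h | h
  · exact absurd (Nat.le_of_dvd (by omega) h) (by omega)
  · exact h

/-- `∑_{k ≤ m} (21 k + 8) C(2k,k)^3 = 8 p` modulo `p^2`. -/
theorem sum_21_mod (p m : ℕ) (hp : p.Prime) (hpm : p = 2 * m + 1) :
    (p : ℤ) ^ 2 ∣ (∑ k ∈ range (m + 1), (21 * (k : ℤ) + 8) * (k.centralBinom : ℤ) ^ 3) - 8 * p := by
  have h := sum_21 p
  have hm1 : m + 1 ≤ p := by have := hp.two_le; omega
  have hsplit := sum_range_add_sum_Ico (fun k : ℕ => (21 * (k : ℤ) + 8) * (k.centralBinom : ℤ) ^ 3)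
    hm1
  rw [h] at hsplit
  have htail : (p : ℤ) ^ 2 ∣ ∑ k ∈ Ico (m + 1) p, (21 * (k : ℤ) + 8) * (k.centralBinom : ℤ) ^ 3 := by
    refine dvd_sum fun k hk => ?_
    rw [mem_Ico] at hk
    apply Dvd.dvd.mul_left
    have h1 : p ∣ k.centralBinom := by
      have h2 : p ∣ (2 * k).factorial := (hp.dvd_factorial).2 (by omega)
      have h3 : ¬ p ∣ k.factorial := fun h => by
        have := (hp.dvd_factorial).1 h; omega
      have h4 := Nat.centralBinom_eq_two_mul_choose k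
      have h5 : k.centralBinom * k.factorial * k.factorial = (2 * k).factorial := by
        rw [h4]
        have := Nat.choose_mul_factorial_mul_factorial (show k ≤ 2 * k by omega)
        rw [show 2 * k - k = k by omega] at this
        exact this
      rw [← h5] at h2
      rcases (hp.dvd_mul).1 h2 with h | h
      · rcases (hp.dvd_mul).1 h with h | h
        · exact h
        · exact absurd h h3
      · exact absurd h h3
    have h6 : (p : ℤ) ∣ (k.centralBinom : ℤ) := Int.natCast_dvd_natCast.2 h1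
    exact (pow_dvd_pow_of_dvd h6 2).trans (pow_dvd_pow _ (by norm_num))
  have hp2 : p ≠ 2 := by omega
  obtain ⟨c, hc⟩ := central_mod p hp hp2
  obtain ⟨d, hd⟩ := s_mod p hp
  obtain ⟨t, ht⟩ := htail
  refine ⟨4 * c * s p + 8 * p * d - t, ?_⟩
  linear_combination hsplit - ht + 4 * p * s p * hc + 8 * p * hd

end Pool.Agent.Q267.Seven
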