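import Pool.Agent.Q267.Seven.Split
import Pool.Agent.Q267.Seven.Sums

/-!
`∑ a(4k) C(2k,k)^3 (-4096)^(m-k) ≡ 0 (mod p^2)` for the Lucas sequence `a = U(5,8)`.
-/

namespace Pool.Agent.Q267.Seven

open Finset

/-- The sequence `a(0) = 0`, `a(1) = 1`, `a(n+2) = 5 a(n+1) - 8 a(n)`. -/
def aL : ℕ → ℤ
  | 0 => 0
  | 1 => 1
  | n + 2 => 5 * aL (n + 1) - 8 * aL n

theorem aL_binet {R : Type*} [CommRing R] (w : R) (hw : w ^ 2 - w + 2 = 0) (n : ℕ) :
    (2 * w - 1) * ((aL n : ℤ) : R) = (w + 2) ^ n - (3 - w) ^ n := by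
  induction n using Nat.twoStepInduction with
  | zero => simp [aL]
  | one => simp [aL]; ring
  | more k h1 h2 =>
    rw [aL]
    push_cast
    have a1 : (w + 2) ^ 2 = 5 * (w + 2) - 8 := by linear_combination hw
    have a2 : (3 - w) ^ 2 = 5 * (3 - w) - 8 := by linear_combination hw
    rw [show k + 2 = k + 1 + 1 from rfl, pow_succ, pow_succ, pow_succ (3 - w),
      pow_succ (3 - w)]
    rw [pow_succ, pow_succ (3 - w)] at h2
    linear_combination 5 * h2 - 8 * h1 - (w + 2) ^ k * a1 + (3 - w) ^ k * a2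

/-- the auxiliary integer. -/
def SS (m : ℕ) : ℤ :=
  ∑ k ∈ range (m + 1), aL (4 * k) * (k.centralBinom : ℤ) * (16 ^ k * dl m k) * (-4096) ^ (m - k)

theorem SS_ring {R : Type*} [CommRing R] (w : R) (hw : w ^ 2 - w + 2 = 0) (m : ℕ) :
    (2 * w - 1) * ((SS m : ℤ) : R) =
      (-1) ^ m * (w ^ (12 * m) * (1 - w) ^ (4 * m) *
        (∑ k ∈ range (m + 1), (dl m k : R) * ((1 - w) ^ 4) ^ (m - k)) ^ 2
      - (1 - w) ^ (12 * m) * w ^ (4 * m) *
        (∑ k ∈ range (m + 1), (dl m k : R) * (w ^ 4) ^ (m - k)) ^ 2) := by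
  have hprod : w * (1 - w) = 2 := by linear_combination -hw
  have h4 : w ^ 4 * (1 - w) ^ 4 = 16 := by rw [← mul_pow, hprod]; norm_num
  have h12 : w ^ 12 * (1 - w) ^ 12 = 4096 := by rw [← mul_pow, hprod]; norm_num
  have hs : w ^ 4 + (1 - w) ^ 4 = 1 := by
    linear_combination 2 * (w ^ 2 - w) * hw
  rw [legendre_sq_hom, legendre_sq_hom, mul_sum, mul_sum, ← sum_sub_distrib, mul_sum]
  unfold SS
  rw [Int.cast_sum, mul_sum]
  refine sum_congr rfl fun k hk => ?_
  have hk' : k ≤ m := by simpa [Nat.lt_succ_iff] using hk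
  have hb := aL_binet w hw (4 * k)
  have e1 : (w + 2) ^ (4 * k) = w ^ (12 * k) := by
    have : (w + 2) = - w ^ 3 := by linear_combination (w + 1) * hw
    rw [this, pow_mul, pow_mul, neg_pow (w ^ 3) 4]
    rw [show (-1 : R) ^ 4 = 1 by norm_num, one_mul, ← pow_mul w 3 4]
  have e2 : (3 - w) ^ (4 * k) = (1 - w) ^ (12 * k) := by
    have : (3 - w) = - (1 - w) ^ 3 := by linear_combination (2 - w) * hw
    rw [this, pow_mul, pow_mul, neg_pow ((1 - w) ^ 3) 4]
    rw [show (-1 : R) ^ 4 = 1 by norm_num, one_mul, ← pow_mul (1 - w) 3 4]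
  rw [e1, e2] at hb
  have f1 : (1 - w) ^ 4 - 1 = - w ^ 4 := by linear_combination hs
  have f2 : w ^ 4 - 1 = - (1 - w) ^ 4 := by linear_combination hs
  have g1 : (16 : R) ^ k = w ^ (4 * k) * (1 - w) ^ (4 * k) := by
    rw [← h4, mul_pow, ← pow_mul, ← pow_mul]
  have g2 : (-4096 : R) ^ (m - k) = (-1) ^ (m - k) * (w ^ (12 * (m - k))
      * (1 - w) ^ (12 * (m - k))) := by
    rw [show (-4096 : R) = (-1) * 4096 by norm_num, mul_pow, ← h12, mul_pow, ← pow_mul, ← pow_mul]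
  have g3 : (-1 : R) ^ m * (-1) ^ k = (-1) ^ (m - k) := by
    obtain ⟨j, rfl⟩ := Nat.exists_eq_add_of_le hk'
    rw [Nat.add_sub_cancel_left, pow_add]
    have : (-1 : R) ^ k * (-1) ^ k = 1 := by rw [← mul_pow]; norm_num
    linear_combination (-1) ^ j * this
  have p1 : w ^ (12 * k) * w ^ (12 * (m - k)) = w ^ (12 * m) := by
    rw [← pow_add]; congr 1; omega
  have p2 : (1 - w) ^ (12 * k) * (1 - w) ^ (12 * (m - k)) = (1 - w) ^ (12 * m) := by
    rw [← pow_add]; congr 1; omega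
  have q1 : (1 - w) ^ (4 * k) * (1 - w) ^ (12 * (m - k)) =
      (1 - w) ^ (4 * m) * ((1 - w) ^ 4) ^ (2 * (m - k)) := by
    rw [← pow_mul, ← pow_add, ← pow_add]; congr 1; omega
  have q2 : w ^ (4 * k) * w ^ (12 * (m - k)) = w ^ (4 * m) * (w ^ 4) ^ (2 * (m - k)) := by
    rw [← pow_mul, ← pow_add, ← pow_add]; congr 1; omega
  have r1 : (-w ^ 4) ^ k = (-1) ^ k * w ^ (4 * k) := by
    rw [neg_pow, ← pow_mul]
  have r2 : (-(1 - w) ^ 4) ^ k = (-1) ^ k * (1 - w) ^ (4 * k) := by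
    rw [neg_pow, ← pow_mul]
  rw [f1, f2, r1, r2]
  push_cast
  rw [g1, g2]
  calc (2 * w - 1) * (((aL (4 * k) : ℤ) : R) * (k.centralBinom : R) *
        (w ^ (4 * k) * (1 - w) ^ (4 * k) * (dl m k : R)) *
        ((-1) ^ (m - k) * (w ^ (12 * (m - k)) * (1 - w) ^ (12 * (m - k)))))
      = ((2 * w - 1) * ((aL (4 * k) : ℤ) : R)) * (k.centralBinom : R) * (dl m k : R)
          * (-1) ^ (m - k) * (w ^ (4 * k) * (1 - w) ^ (4 * k)
          * (w ^ (12 * (m - k)) * (1 - w) ^ (12 * (m - k)))) := by ring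
    _ = (k.centralBinom : R) * (dl m k : R) * (-1) ^ (m - k) *
          (w ^ (4 * k) * (w ^ (12 * k) * w ^ (12 * (m - k)))
            * ((1 - w) ^ (4 * k) * (1 - w) ^ (12 * (m - k)))
          - (1 - w) ^ (4 * k) * ((1 - w) ^ (12 * k) * (1 - w) ^ (12 * (m - k)))
            * (w ^ (4 * k) * w ^ (12 * (m - k)))) := by rw [hb]; ring
    _ = _ := by
      rw [p1, p2, q1, q2, ← g3]
      ring

/-- `p^2 ∣ SS m` for `p = 2m+1 ≠ 7`. -/
theorem SS_dvd (p m : ℕ) [hp : Fact p.Prime] (hpm : p = 2 * m + 1) (h3 : 3 ≤ p) (h7 : p ≠ 7) :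
    (p : ℤ) ^ 2 ∣ SS m := by
  by_cases hroot : ∃ w : ZMod p, w ^ 2 - w + 2 = 0
  · -- split case
    obtain ⟨w0, hw0⟩ := hroot
    obtain ⟨a, _, hda⟩ := Pool.Agent.Q267.Landen.hensel p h7 w0 hw0
    have hcast : ((p ^ 2 : ℕ) : ℤ) = (p : ℤ) ^ 2 := by push_cast; rfl
    have ra : ((a : ℤ) : ZMod (p ^ 2)) ^ 2 - (a : ZMod (p ^ 2)) + 2 = 0 := by
      rw [← hcast, ← ZMod.intCast_zmod_eq_zero_iff_dvd] at hda
      push_cast at hda
      exact hda
    have rb : (((1 - a : ℤ)) : ZMod (p ^ 2)) ^ 2 - ((1 - a : ℤ) : ZMod (p ^ 2)) + 2 = 0 := by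
      push_cast
      linear_combination ra
    have ka := split_key p m hpm h3 h7 a ra
    have kb := split_key p m hpm h3 h7 (1 - a) rb
    push_cast at kb
    rw [← hcast, ← ZMod.intCast_zmod_eq_zero_iff_dvd]
    have hring := SS_ring ((a : ℤ) : ZMod (p ^ 2)) ra m
    set α : ZMod (p ^ 2) := (a : ZMod (p ^ 2)) with hα
    set Ea := ∑ k ∈ range (m + 1), (dl m k : ZMod (p ^ 2)) * (α ^ 4) ^ (m - k)
    set Eb := ∑ k ∈ range (m + 1), (dl m k : ZMod (p ^ 2)) * ((1 - α) ^ 4) ^ (m - k)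
    have sa := legendre_sq_ring m (α ^ 4)
    have sb := legendre_sq_ring m ((1 - α) ^ 4)
    have hs : α ^ 4 + (1 - α) ^ 4 = 1 := by
      linear_combination 2 * (α ^ 2 - α) * ra
    have hFF : (∑ k ∈ range (m + 1), (dl m k : ZMod (p ^ 2)) * (α ^ 4) ^ k) ^ 2 =
        (∑ k ∈ range (m + 1), (dl m k : ZMod (p ^ 2)) * ((1 - α) ^ 4) ^ k) ^ 2 := by
      rw [sa, sb]
      refine sum_congr rfl fun k _ => ?_
      congr 2
      linear_combination (-(α ^ 4 - (1 - α) ^ 4)) * hs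
    set Fa := ∑ k ∈ range (m + 1), (dl m k : ZMod (p ^ 2)) * (α ^ 4) ^ k
    set Fb := ∑ k ∈ range (m + 1), (dl m k : ZMod (p ^ 2)) * ((1 - α) ^ 4) ^ k
    have hab : α * (1 - α) = 2 := by linear_combination -ra
    have u2 : IsUnit (2 : ZMod (p ^ 2)) := by
      have : ((2 : ℕ) : ZMod (p ^ 2)) * ((2 : ℕ) : ZMod (p ^ 2))⁻¹ = 1 := by
        apply ZMod.coe_mul_inv_eq_one
        apply Nat.Coprime.pow_right
        exact ((Nat.Prime.coprime_iff_not_dvd hp.out).2
          (Nat.not_dvd_of_pos_of_lt (by norm_num) (by omega))).symm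
      push_cast at this
      exact IsUnit.of_mul_eq_one _ this
    have u7 : IsUnit (7 : ZMod (p ^ 2)) := by
      have : ((7 : ℕ) : ZMod (p ^ 2)) * ((7 : ℕ) : ZMod (p ^ 2))⁻¹ = 1 := by
        apply ZMod.coe_mul_inv_eq_one
        apply Nat.Coprime.pow_right
        apply Nat.Coprime.symm
        rw [Nat.Prime.coprime_iff_not_dvd hp.out]
        intro h
        exact h7 ((Nat.prime_dvd_prime_iff_eq hp.out (by norm_num)).1 h)
      push_cast at this
      exact IsUnit.of_mul_eq_one _ this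
    have ua : IsUnit α := by
      rw [← hab] at u2
      exact isUnit_of_mul_isUnit_left u2
    have ub : IsUnit (1 - α) := by
      rw [← hab] at u2
      exact isUnit_of_mul_isUnit_right u2
    have qa : Ea ^ 2 = α ^ (8 * m) * Fa ^ 2 := by
      apply (ua.pow 4).mul_left_cancel
      have : (α ^ 2 * Ea) ^ 2 = (α ^ (2 * p) * Fa) ^ 2 := by rw [ka]
      have e : (α ^ (2 * p)) ^ 2 = α ^ 4 * α ^ (8 * m) := by
        rw [← pow_mul, ← pow_add]; congr 1; omega
      rw [mul_pow, mul_pow, e, ← pow_mul] at this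
      linear_combination this
    have qb : Eb ^ 2 = (1 - α) ^ (8 * m) * Fb ^ 2 := by
      apply (ub.pow 4).mul_left_cancel
      have : ((1 - α) ^ 2 * Eb) ^ 2 = ((1 - α) ^ (2 * p) * Fb) ^ 2 := by rw [kb]
      have e : ((1 - α) ^ (2 * p)) ^ 2 = (1 - α) ^ 4 * (1 - α) ^ (8 * m) := by
        rw [← pow_mul, ← pow_add]; congr 1; omega
      rw [mul_pow, mul_pow, e, ← pow_mul] at this
      linear_combination this
    rw [qa, qb] at hring
    have z1 : (1 - α) ^ (4 * m) * (1 - α) ^ (8 * m) = (1 - α) ^ (12 * m) := by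
      rw [← pow_add]; congr 1; omega
    have z2 : α ^ (4 * m) * α ^ (8 * m) = α ^ (12 * m) := by
      rw [← pow_add]; congr 1; omega
    have hzero : (2 * α - 1) * ((SS m : ℤ) : ZMod (p ^ 2)) = 0 := by
      rw [hring]
      linear_combination ((-1) ^ m * α ^ (12 * m) * Fb ^ 2) * z1
        - ((-1) ^ m * (1 - α) ^ (12 * m) * Fa ^ 2) * z2
        - ((-1) ^ m * α ^ (12 * m) * (1 - α) ^ (12 * m)) * hFF
    apply u7.mul_left_cancel
    rw [mul_zero]
    linear_combination (-(2 * α - 1)) * hzero + 4 * ((SS m : ℤ) : ZMod (p ^ 2)) * ra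
  · -- inert case
    have hno : ∀ w : ZMod p, w ^ 2 - w + 2 ≠ 0 := fun w hw => hroot ⟨w, hw⟩
    have hp2 : p ≠ 2 := by omega
    obtain ⟨w, hw, hne⟩ := exists_root p hp2 hno
    have h2 : (2 : AlgebraicClosure (ZMod p)) ≠ 0 := by
      have : ((2 : ℕ) : AlgebraicClosure (ZMod p)) ≠ 0 := by
        rw [Ne, CharP.cast_eq_zero_iff _ p]
        intro h
        exact hp2 ((Nat.prime_dvd_prime_iff_eq hp.out (by norm_num)).1 h)
      exact_mod_cast this
    have hom : om ^ 2 - om + 2 = 0 := by rw [om_sq]; ring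
    have hbar : (1 - w) ^ 2 - (1 - w) + 2 = 0 := by linear_combination hw
    have hnebar : (1 - w) ^ p ≠ 1 - w := by
      intro h
      apply hne
      have := sub_pow_char (p := p) (1 : AlgebraicClosure (ZMod p)) w
      rw [this, one_pow] at h
      linear_combination -h
    have refl : ∀ v : AlgebraicClosure (ZMod p), ∑ k ∈ range (m + 1),
        Pool.Agent.Q267.Landen.cc (AlgebraicClosure (ZMod p)) m k * (v ^ 4) ^ (m - k) =
        ∑ k ∈ range (m + 1),
        Pool.Agent.Q267.Landen.cc (AlgebraicClosure (ZMod p)) m k * (v ^ 4) ^ k := by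
      intro v
      rw [← sum_range_reflect]
      refine sum_congr rfl fun k hk => ?_
      have hk' : k ≤ m := by simpa [Nat.lt_succ_iff] using hk
      rw [show m + 1 - 1 - k = m - k by omega, Nat.sub_sub_self hk',
        Pool.Agent.Q267.Landen.cc_symm m k hk']
    have ga : ∃ z : R2, ∑ k ∈ range (m + 1), (dl m k : R2) * (om ^ 4) ^ (m - k) =
        (p : R2) * z := by
      apply ker_phi p w hw hne
      rw [map_sum, ← F_zero p m hpm h2 h7 w hw hne, ← refl w]
      refine sum_congr rfl fun k hk => ?_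
      have hk' : k ≤ m := by simpa [Nat.lt_succ_iff] using hk
      rw [map_mul, map_pow, map_pow, phi_om, map_intCast, dl_mod p m hpm k hk']
    have gb : ∃ z : R2, ∑ k ∈ range (m + 1), (dl m k : R2) * ((1 - om) ^ 4) ^ (m - k) =
        (p : R2) * z := by
      apply ker_phi p w hw hne
      rw [map_sum, ← F_zero p m hpm h2 h7 (1 - w) hbar hnebar, ← refl (1 - w)]
      refine sum_congr rfl fun k hk => ?_
      have hk' : k ≤ m := by simpa [Nat.lt_succ_iff] using hk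
      rw [map_mul, map_pow, map_pow, map_sub, map_one, phi_om, map_intCast, dl_mod p m hpm k hk']
    obtain ⟨za, hza⟩ := ga
    obtain ⟨zb, hzb⟩ := gb
    have hring := SS_ring om hom m
    rw [hza, hzb] at hring
    set y : R2 := (-1) ^ m * (om ^ (12 * m) * (1 - om) ^ (4 * m) * zb ^ 2
      - (1 - om) ^ (12 * m) * om ^ (4 * m) * za ^ 2) with hy
    have h1 : ((-7 * SS m : ℤ) : R2) = (((p : ℤ) ^ 2 : ℤ) : R2) * ((2 * om - 1) * y) := by
      push_cast
      rw [hy]
      linear_combination (2 * om - 1) * hring - 4 * ((SS m : ℤ) : R2) * hom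
    have h2 := congrArg QuadraticAlgebra.re h1
    rw [QuadraticAlgebra.re_mul, QuadraticAlgebra.re_intCast, QuadraticAlgebra.re_intCast,
      QuadraticAlgebra.im_intCast] at h2
    have h3' : (p : ℤ) ^ 2 ∣ 7 * SS m := by
      refine ⟨-((2 * om - 1) * y).re, ?_⟩
      simp only [Int.cast_id, mul_zero, zero_mul, add_zero] at h2
      linear_combination -h2
    have hcop : IsCoprime ((p : ℤ) ^ 2) 7 := by
      apply IsCoprime.pow_left
      have : IsCoprime (p : ℤ) ((7 : ℕ) : ℤ) := by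
        rw [Nat.isCoprime_iff_coprime, Nat.Prime.coprime_iff_not_dvd hp.out]
        intro h
        exact h7 ((Nat.prime_dvd_prime_iff_eq hp.out (by norm_num)).1 h)
      exact_mod_cast this
    exact hcop.dvd_of_dvd_mul_left h3'

end Pool.Agent.Q267.Seven
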