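import Pool.Agent.Q267.Seven.Sym

/-!
Roots of `X^2 - X + 2` modulo `p` and the residue of `p` modulo `7`.
-/

namespace Pool.Agent.Q267.Seven

open Finset

/-- a root forces `(p/7) = 1`. -/
theorem no_root (p : ℕ) [hp : Fact p.Prime] (h2 : p ≠ 2) (h7 : p ≠ 7)
    (h : jacobiSym (p : ℤ) 7 = -1) (w : ZMod p) : w ^ 2 - w + 2 ≠ 0 := by
  intro hw
  have hodd : Odd p := hp.out.odd_of_ne_two h2
  have h1 : legendreSym p (-7) = -1 := by
    rw [jacobiSym.legendreSym.to_jacobiSym, jac_neg_seven p hodd, h]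
  rw [legendreSym.eq_neg_one_iff] at h1
  apply h1
  refine ⟨2 * w - 1, ?_⟩
  push_cast
  linear_combination (-4) * hw

theorem jac_of_mod (p : ℕ) (h : p % 7 = 3 ∨ p % 7 = 5 ∨ p % 7 = 6) :
    jacobiSym (p : ℤ) 7 = -1 := by
  have e : jacobiSym (p : ℤ) 7 = jacobiSym ((p % 7 : ℕ) : ℤ) 7 := by
    rw [jacobiSym.mod_left (p : ℤ) 7]
    push_cast
    rfl
  rw [e]
  rcases h with h | h | h <;> rw [h] <;> decide +kernel

end Pool.Agent.Q267.Seven
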