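import Mathlib

/-!
The quadratic symbol of `-7`.
-/

namespace Pool.Agent.Q267.Seven

open Finset

/-- `(-7 / p) = (p / 7)`. -/
theorem jac_neg_seven (p : ℕ) (hp : Odd p) : jacobiSym (-7) p = jacobiSym (p : ℤ) 7 := by
  have h7 : jacobiSym (-7) p = jacobiSym (-1) p * jacobiSym ((7 : ℕ) : ℤ) p := by
    rw [← jacobiSym.mul_left]; norm_num
  have h4 : p % 4 = 1 ∨ p % 4 = 3 := by
    obtain ⟨k, rfl⟩ := hp
    omega
  rw [h7]
  rcases h4 with h | h
  · rw [jacobiSym.at_neg_one hp, ZMod.χ₄_nat_one_mod_four h, one_mul]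
    exact (jacobiSym.quadratic_reciprocity_one_mod_four h (by decide)).symm
  · rw [jacobiSym.at_neg_one hp, ZMod.χ₄_nat_three_mod_four h]
    rw [jacobiSym.quadratic_reciprocity_three_mod_four (a := 7) (b := p) (by norm_num) h]
    ring

/-- Euler's criterion for `-63`. -/
theorem pow_neg_63 (p m : ℕ) [hp : Fact p.Prime] (hpm : p = 2 * m + 1) (h3 : (3 : ZMod p) ≠ 0) :
    ((-63 : ZMod p)) ^ m = ((jacobiSym (p : ℤ) 7 : ℤ) : ZMod p) := by
  have hodd : Odd p := ⟨m, hpm⟩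
  rw [← jac_neg_seven p hodd]
  have h1 := legendreSym.eq_pow p (-7)
  rw [jacobiSym.legendreSym.to_jacobiSym] at h1
  rw [h1, show p / 2 = m by omega]
  have h9 : (9 : ZMod p) ^ m = 1 := by
    have := ZMod.pow_card_sub_one_eq_one h3
    rw [show p - 1 = 2 * m by omega, pow_mul] at this
    rw [← this]; norm_num
  rw [show (-63 : ZMod p) = 9 * (-7) by norm_num, mul_pow, h9, one_mul]
  push_cast
  rfl

end Pool.Agent.Q267.Seven
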